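import Pool.Agent.TH778.SA.Onto
import Pool.Agent.W684.MADef

/-!
# The countable chain condition
-/

set_option autoImplicit false

namespace Pool.Agent.TH778.SA

open Set Cardinal Pool.Agent.Helper330.DPK.Coh

/-- the set of the conditions -/
def PP (F : W → W) (K : Set LL) : Type := {p : Finset Tr // IsCond F K p}

instance (F : W → W) (K : Set LL) : Preorder (PP F K) where
  le q p := p.1 ⊆ q.1
  le_refl p := subset_rfl
  le_trans r q p h1 h2 := Finset.Subset.trans h2 h1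

variable {F : W → W} {K : Set LL}

theorem PP.le_def {p q : PP F K} : q ≤ p ↔ p.1 ⊆ q.1 := Iff.rfl

theorem fin_bound (hF : ∀ ξ, ξ < F ξ) {δ b0 : W} (hδ : δ ∈ Cl F) (hb : b0 < δ) (T : Set W)
    (hT : T.Finite) (hT' : ∀ t ∈ T, t < δ) : ∃ γ < δ, ∀ t ∈ T, t < γ := by
  induction T, hT using Set.Finite.induction_on with
  | empty => exact ⟨b0, hb, by simp⟩
  | @insert a T _ _ ih =>
    obtain ⟨γ, h1, h2⟩ := ih fun t ht => hT' t (mem_insert_of_mem _ ht)
    refine ⟨sc (max a γ), sc_lt_of_mem hF hδ (max_lt (hT' a (mem_insert _ _)) h1), ?_⟩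
    rintro t (rfl | ht)
    · exact (le_max_left _ _).trans_lt (lt_sc _)
    · exact ((h2 t ht).trans_le (le_max_right _ _)).trans (lt_sc _)

/-- pigeonhole -/
theorem pigeon {α β : Type} {S : Set α} (hS : ¬ S.Countable) (f : α → β) {T : Set β}
    (hT : T.Countable) (hf : ∀ a ∈ S, f a ∈ T) : ∃ t, ¬ {a | a ∈ S ∧ f a = t}.Countable := by
  by_contra hcon
  push Not at hcon
  apply hS
  refine (hT.biUnion fun t _ => hcon t).mono fun a ha => ?_
  exact mem_iUnion₂.2 ⟨f a, hf a ha, ha, rfl⟩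

theorem countable_finsets {α : Type} {B : Set α} (hB : B.Countable) :
    {s : Finset α | ∀ x ∈ s, x ∈ B}.Countable := by
  classical
  refine Set.countable_of_injective_of_countable_image (f := fun s : Finset α => (s : Set α))
    (fun s _ t _ h => Finset.coe_injective h) ((Set.countable_ofPred_finite_subset hB).mono ?_)
  rintro _ ⟨s, hs, rfl⟩
  exact ⟨s.finite_toSet, fun x hx => hs x hx⟩

/-- the triples bounded by `γ` -/
def Bd (γ : W) : Set Tr := {u | ht u.1 < γ ∧ u.2.1 < γ ∧ ht u.2.2 < γ}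

theorem countable_Bd (γ : W) : (Bd γ).Countable := by
  have h := (countable_ht_lt γ).prod ((countable_Iio γ).prod (countable_ht_lt γ))
  refine h.mono fun u hu => ?_
  exact ⟨hu.1, hu.2.1, hu.2.2⟩

open Classical in
/-- the leaf attached at level `γ` -/
noncomputable def att (γ : W) (x : LL) : LL :=
  if h : γ ≤ ht x then (exists_attach x h).choose else x

theorem att_ht {γ : W} {x : LL} (h : γ ≤ ht x) : ht (att γ x) = γ := by
  rw [att, dif_pos h]
  exact (exists_attach x h).choose_spec.1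

theorem att_agree {γ : W} {x : LL} (h : γ ≤ ht x) : Agree γ x.1 (att γ x).1 := by
  rw [att, dif_pos h]
  exact (exists_attach x h).choose_spec.2

theorem ccc (hF : ∀ ξ, ξ < F ξ) : Pool.Agent.W684.IsCCC (PP F K) := by
  classical
  intro A hA
  by_contra hAc
  -- for every level there is a condition which is not below it
  have hex : ∀ δ : W, ∃ p : PP F K, p ∈ A ∧ ∃ u ∈ p.1, u ∉ Bd δ := by
    intro δ
    by_contra hcon
    push Not at hcon
    apply hAc
    refine Set.countable_of_injective_of_countable_image (f := fun p : PP F K => p.1)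
      (fun p _ q _ h => Subtype.ext h) ((countable_finsets (countable_Bd δ)).mono ?_)
    rintro _ ⟨p, hp, rfl⟩
    exact fun u hu => hcon p hp u hu
  choose P hPA hPu using hex
  have hup : ∀ δ ∈ Cl F, ∃ u ∈ (P δ).1, δ ≤ ht u.2.2 := by
    intro δ hδ
    obtain ⟨u, hu, hu'⟩ := hPu δ
    refine ⟨u, hu, ?_⟩
    by_contra hcon
    have hg := (P δ).2.gd u hu
    have h1 : ht u.1 < δ := by
      by_contra h
      exact hcon ((hg.le_iff' hδ).1 (not_lt.1 h))
    have h2 : u.2.1 < δ := by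
      by_contra h
      exact hcon ((hg.le_iff hδ).1 (not_lt.1 h))
    exact hu' ⟨h1, h2, not_le.1 hcon⟩
  -- the bound
  let R : W → W → Prop := fun δ γ =>
    (∀ u ∈ (P δ).1, ht u.2.2 < δ → u ∈ Bd γ) ∧
    ∀ u ∈ (P δ).1, δ ≤ ht u.2.2 → ∀ ξ, γ ≤ ξ → ξ < δ →
      u.1.1 ξ = (cg δ ξ : ℝ) ∧ u.2.2.1 ξ = (cg δ ξ : ℝ)
  obtain ⟨b0⟩ : Nonempty W := inferInstance
  have hR : ∀ δ ∈ Cl F, b0 < δ → ∃ γ < δ, R δ γ := by
    intro δ hδ hb
    let T : Tr → Set W := fun u => {t | t < δ ∧ t ∈ ({ht u.1, u.2.1, ht u.2.2} : Set W)} ∪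
      ({ξ | δ ≤ ht u.1 ∧ ξ < δ ∧ u.1.1 ξ ≠ (cg δ ξ : ℝ)} ∪
        {ξ | δ ≤ ht u.2.2 ∧ ξ < δ ∧ u.2.2.1 ξ ≠ (cg δ ξ : ℝ)})
    have hTfin : ∀ u, (T u).Finite := by
      intro u
      refine Set.Finite.union ?_ (Set.Finite.union ?_ ?_)
      · refine (Set.Finite.subset (s := ({ht u.1, u.2.1, ht u.2.2} : Set W)) ?_ fun t ht => ht.2)
        exact Set.toFinite _
      · by_cases h : δ ≤ ht u.1
        · exact (fin_of_le h).subset fun ξ hξ => hξ.2
        · refine (Set.finite_empty).subset fun ξ hξ => (h hξ.1).elim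
      · by_cases h : δ ≤ ht u.2.2
        · exact (fin_of_le h).subset fun ξ hξ => hξ.2
        · refine (Set.finite_empty).subset fun ξ hξ => (h hξ.1).elim
    have hTlt : ∀ u, ∀ t ∈ T u, t < δ := by
      rintro u t (h | h | h)
      · exact h.1
      · exact h.2.1
      · exact h.2.1
    obtain ⟨γ, h1, h2⟩ := fin_bound hF hδ hb (⋃ u ∈ (P δ).1, T u)
      ((P δ).1.finite_toSet.biUnion fun u _ => hTfin u) (by
        intro t ht
        obtain ⟨u, -, hu⟩ := mem_iUnion₂.1 ht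
        exact hTlt u t hu)
    have h3 : ∀ u ∈ (P δ).1, ∀ t ∈ T u, t < γ := fun u hu t ht =>
      h2 t (mem_iUnion₂.2 ⟨u, hu, ht⟩)
    refine ⟨γ, h1, fun u hu hlt => ?_, fun u hu hle ξ h4 h5 => ?_⟩
    · have hg := (P δ).2.gd u hu
      have h4 : ht u.1 < δ := by
        by_contra h
        exact absurd ((hg.le_iff' hδ).1 (not_lt.1 h)) (not_le.2 hlt)
      have h5 : u.2.1 < δ := by
        by_contra h
        exact absurd ((hg.le_iff hδ).1 (not_lt.1 h)) (not_le.2 hlt)
      exact ⟨h3 u hu _ (Or.inl ⟨h4, by simp⟩), h3 u hu _ (Or.inl ⟨h5, by simp⟩),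
        h3 u hu _ (Or.inl ⟨hlt, by simp⟩)⟩
    · have hg := (P δ).2.gd u hu
      constructor
      · by_contra h
        exact absurd (h3 u hu ξ (Or.inr (Or.inl ⟨(hg.le_iff' hδ).2 hle, h5, h⟩))) (not_lt.2 h4)
      · by_contra h
        exact absurd (h3 u hu ξ (Or.inr (Or.inr ⟨hle, h5, h⟩))) (not_lt.2 h4)
  choose! g hg1 hg2 using hR
  obtain ⟨γ, hγ⟩ := pressing F g b0 hg1
  -- the lower part and the type
  let f : W → Finset Tr × Finset (LL × LL) := fun δ =>
    ((P δ).1.filter (fun u => ht u.2.2 < δ),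
      ((P δ).1.filter (fun u => δ ≤ ht u.2.2)).image fun u => (att γ u.1, att γ u.2.2))
  obtain ⟨t, ht⟩ := pigeon hγ f (T := {s : Finset Tr | ∀ x ∈ s, x ∈ Bd γ} ×ˢ
      {s : Finset (LL × LL) | ∀ x ∈ s, x ∈ {x : LL | ht x = γ} ×ˢ {x : LL | ht x = γ}})
    ((countable_finsets (countable_Bd γ)).prod (countable_finsets
      ((countable_ht_eq γ).prod (countable_ht_eq γ)))) (by
      rintro δ ⟨h1, h2, h3⟩
      obtain ⟨h4, h5⟩ := hg2 δ h1 h2
      have h6 := hg1 δ h1 h2
      rw [h3] at h4 h6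
      refine ⟨fun u hu => ?_, fun x hx => ?_⟩
      · obtain ⟨hu1, hu2⟩ := Finset.mem_filter.1 hu
        exact h4 u hu1 hu2
      · obtain ⟨u, hu, rfl⟩ := Finset.mem_image.1 hx
        obtain ⟨hu1, hu2⟩ := Finset.mem_filter.1 hu
        have hg := (P δ).2.gd u hu1
        exact ⟨att_ht (h6.le.trans ((hg.le_iff' h1).2 hu2)), att_ht (h6.le.trans hu2)⟩)
  have hbd : ∀ δ : W, ∃ b, ∀ u ∈ (P δ).1, SA.ht u.2.2 < b := by
    intro δ
    obtain ⟨b, hb⟩ := exists_ub (((P δ).1.finite_toSet.countable).image fun u : Tr => SA.ht u.2.2)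
    exact ⟨b, fun u hu => hb _ ⟨u, hu, rfl⟩⟩
  choose b hb using hbd
  obtain ⟨δ, ⟨⟨hδC, hδb, hδg⟩, hδt⟩, δ', ⟨⟨hδC', hδb', hδg'⟩, hδt'⟩, hlt, hblt, ξ, hξ1, hξ2, hξ3,
    hξ4⟩ := disagree ht b γ
  have hlow : (P δ).1.filter (fun u => SA.ht u.2.2 < δ) =
      (P δ').1.filter (fun u => SA.ht u.2.2 < δ') := congrArg Prod.fst (hδt.trans hδt'.symm)
  have htyp : ((P δ).1.filter (fun u => δ ≤ SA.ht u.2.2)).image (fun u => (att γ u.1, att γ u.2.2)) =
      ((P δ').1.filter (fun u => δ' ≤ SA.ht u.2.2)).image (fun u => (att γ u.1, att γ u.2.2)) :=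
    congrArg Prod.snd (hδt.trans hδt'.symm)
  obtain ⟨-, hval⟩ := hg2 δ hδC hδb
  obtain ⟨-, hval'⟩ := hg2 δ' hδC' hδb'
  have hγδ := hg1 δ hδC hδb
  rw [hδg] at hval hγδ
  rw [hδg'] at hval'
  -- the main point
  have hmain : ∀ u ∈ (P δ).1, ∀ v ∈ (P δ').1, Pq F u v := by
    intro u hu v hv
    have hPu := (P δ).2
    have hPv := (P δ').2
    by_cases hul : SA.ht u.2.2 < δ
    · have h1 : u ∈ (P δ').1.filter (fun u => SA.ht u.2.2 < δ') := by
        rw [← hlow]
        exact Finset.mem_filter.2 ⟨hu, hul⟩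
      exact hPv.pq u (Finset.mem_filter.1 h1).1 v hv
    by_cases hvl : SA.ht v.2.2 < δ'
    · have h1 : v ∈ (P δ).1.filter (fun u => SA.ht u.2.2 < δ) := by
        rw [hlow]
        exact Finset.mem_filter.2 ⟨hv, hvl⟩
      exact hPu.pq u hu v (Finset.mem_filter.1 h1).1
    rw [not_lt] at hul hvl
    have h1 : (att γ v.1, att γ v.2.2) ∈
        ((P δ).1.filter (fun u => δ ≤ SA.ht u.2.2)).image (fun u => (att γ u.1, att γ u.2.2)) := by
      rw [htyp]
      exact Finset.mem_image.2 ⟨v, Finset.mem_filter.2 ⟨hv, hvl⟩, rfl⟩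
    obtain ⟨w, hw, hwv⟩ := Finset.mem_image.1 h1
    obtain ⟨hw, hwl⟩ := Finset.mem_filter.1 hw
    obtain ⟨hwv1, hwv2⟩ := Prod.mk.inj hwv
    have hgu := hPu.gd u hu
    have hgv := hPv.gd v hv
    have hgw := hPu.gd w hw
    have hγδ' : γ ≤ δ' := (hγδ.trans hlt).le
    have hw1 : Agree γ w.1.1 v.1.1 := by
      refine (att_agree (hγδ.le.trans ((hgw.le_iff' hδC).2 hwl))).trans ?_
      rw [hwv1]
      exact (att_agree (hγδ'.trans ((hgv.le_iff' hδC').2 hvl))).symm
    have hw2 : Agree γ w.2.2.1 v.2.2.1 := by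
      refine (att_agree (hγδ.le.trans hwl)).trans ?_
      rw [hwv2]
      exact (att_agree (hγδ'.trans hvl)).symm
    have hcu : δ ≤ u.2.1 := (hgu.le_iff hδC).2 hul
    have hcv : δ' ≤ v.2.1 := (hgv.le_iff hδC').2 hvl
    have hvu := hval u hu hul
    have hvw := hval w hw hwl
    have hvv := hval' v hv hvl
    have hext1 : Agree γ u.1.1 w.1.1 → Agree δ u.1.1 w.1.1 := by
      intro h η hη
      rcases lt_or_ge η γ with h2 | h2
      · exact h η h2
      · rw [(hvu η h2 hη).1, (hvw η h2 hη).1]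
    have hext2 : Agree γ u.2.2.1 w.2.2.1 → Agree δ u.2.2.1 w.2.2.1 := by
      intro h η hη
      rcases lt_or_ge η γ with h2 | h2
      · exact h η h2
      · rw [(hvu η h2 hη).2, (hvw η h2 hη).2]
    have hpq := hPu.pq u hu w hw
    have hagr := hpq.agr δ hδC hul hwl
    by_cases hcase : Agree γ u.1.1 w.1.1
    · have h2 : Agree γ u.2.2.1 w.2.2.1 := (hagr.1 (hext1 hcase)).mono hγδ.le
      have h3 : Agree γ u.1.1 v.1.1 := hcase.trans hw1
      have h4 : Agree γ u.2.2.1 v.2.2.1 := h2.trans hw2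
      have hξδ' : ξ < δ' := hξ2.trans hlt
      have h5 : Agree ξ u.1.1 v.1.1 := by
        intro η hη
        rcases lt_or_ge η γ with h6 | h6
        · exact h3 η h6
        · rw [(hvu η h6 (hη.trans hξ2)).1, (hvv η h6 (hη.trans hξδ')).1, hξ3 η h6 hη]
      have h6 : Agree ξ u.2.2.1 v.2.2.1 := by
        intro η hη
        rcases lt_or_ge η γ with h7 | h7
        · exact h4 η h7
        · rw [(hvu η h7 (hη.trans hξ2)).2, (hvv η h7 (hη.trans hξδ')).2, hξ3 η h7 hη]
      have hne : ((cg δ ξ : ℕ) : ℝ) ≠ (cg δ' ξ : ℝ) := fun h => hξ4 (by exact_mod_cast h)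
      have e1 : u.1.1 ξ = (cg δ ξ : ℝ) := (hvu ξ hξ1 hξ2).1
      have e2 : u.2.2.1 ξ = (cg δ ξ : ℝ) := (hvu ξ hξ1 hξ2).2
      have e3 : v.1.1 ξ = (cg δ' ξ : ℝ) := (hvv ξ hξ1 hξδ').1
      have e4 : v.2.2.1 ξ = (cg δ' ξ : ℝ) := (hvv ξ hξ1 hξδ').2
      have h7 : u.1.1 ξ ≠ v.1.1 ξ := by rw [e1, e3]; exact hne
      have h8 : u.2.2.1 ξ ≠ v.2.2.1 ξ := by rw [e2, e4]; exact hne
      have h9 := dl_eq_of h5 h7
      have h10 := dl_eq_of h6 h8
      have hne1 : u.1.1 ≠ v.1.1 := fun h => h7 (by rw [h])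
      have hne2 : u.2.2.1 ≠ v.2.2.1 := fun h => h8 (by rw [h])
      refine ⟨fun s hs => ⟨?_, ?_, ?_⟩, fun ε _ _ _ => ?_⟩
      · rw [rel_iff_dl hne1, h9, e1, e3]
        rw [rel_iff_dl hne2, h10, e2, e4] at hs
        exact hs
      · rw [h9]
        exact hξ2.trans_le hcu
      · rw [h9]
        exact hξδ'.trans_le hcv
      · rw [agree_iff hne1, agree_iff hne2, h9, h10]
    · have hne1 : u.1.1 ≠ w.1.1 := by
        intro h
        rw [h] at hcase
        exact hcase (Agree.refl _ _)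
      have h2 : ¬ Agree γ u.2.2.1 w.2.2.1 := fun h =>
        hcase ((hagr.2 (hext2 h)).mono hγδ.le)
      have hne2 : u.2.2.1 ≠ w.2.2.1 := by
        intro h
        rw [h] at h2
        exact h2 (Agree.refl _ _)
      have h3 : dl u.1.1 w.1.1 < γ := by
        rw [agree_iff hne1, not_le] at hcase
        exact hcase
      have h4 : dl u.2.2.1 w.2.2.1 < γ := by
        rw [agree_iff hne2, not_le] at h2
        exact h2
      have h5 : dl u.1.1 v.1.1 = dl u.1.1 w.1.1 := dl_of_agree hne1 h3 hw1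
      have h6 : dl u.2.2.1 v.2.2.1 = dl u.2.2.1 w.2.2.1 := dl_of_agree hne2 h4 hw2
      refine ⟨fun s hs => ?_, fun ε hε h7 h8 => ?_⟩
      · have h7 : rel s u.2.2.1 w.2.2.1 := rel_of_agree hs (by rw [h6]; exact h4) hw2.symm
        obtain ⟨h8, -, -⟩ := hpq.ord s h7
        rw [h5]
        exact ⟨rel_of_agree h8 h3 hw1, (h3.trans hγδ).trans_le hcu,
          (h3.trans (hγδ.trans hlt)).trans_le hcv⟩
      · rcases le_or_gt ε γ with h9 | h9
        · have h10 := hpq.agr ε hε h7 ((h9.trans hγδ.le).trans hwl)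
          have h11 := hw1.mono h9
          have h12 := hw2.mono h9
          exact ⟨fun h => (h10.1 (h.trans h11.symm)).trans h12,
            fun h => (h10.2 (h.trans h12.symm)).trans h11⟩
        · constructor
          · intro h
            exact absurd ((h.mono h9.le).trans hw1.symm) hcase
          · intro h
            exact absurd ((h.mono h9.le).trans hw2.symm) h2
  -- the union is a condition
  have hcond : IsCond F K ((P δ).1 ∪ (P δ').1) := by
    refine ⟨fun u hu => ?_, fun u hu v hv => ?_⟩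
    · rcases Finset.mem_union.1 hu with h | h
      · exact (P δ).2.gd u h
      · exact (P δ').2.gd u h
    · rcases Finset.mem_union.1 hu with h | h
      · rcases Finset.mem_union.1 hv with h' | h'
        · exact (P δ).2.pq u h v h'
        · exact hmain u h v h'
      · rcases Finset.mem_union.1 hv with h' | h'
        · exact (hmain v h' u h).symm
        · exact (P δ').2.pq u h v h'
  have hne : P δ ≠ P δ' := by
    intro h
    obtain ⟨u, hu, hu'⟩ := hup δ' hδC'
    rw [← h] at hu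
    exact absurd (hu'.trans (hb δ u hu).le) (not_le.2 hblt)
  exact hA (P δ) (hPA δ) (P δ') (hPA δ') hne ⟨⟨_, hcond⟩, Finset.subset_union_left,
    Finset.subset_union_right⟩

end Pool.Agent.TH778.SA
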