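import Pool.Agent.TH778.SA.Seq

/-!
# Closed unbounded sets of countable ordinals
-/

set_option autoImplicit false

namespace Pool.Agent.TH778.SA

open Set Cardinal Pool.Agent.Helper330.DPK.Coh

/-- the closure points of a function -/
def Cl (F : W → W) : Set W := {δ | ∀ ξ < δ, F ξ < δ}

/-- least element -/
theorem exists_least {S : Set W} (h : S.Nonempty) : ∃ m ∈ S, ∀ x ∈ S, m ≤ x :=
  ⟨(wellFounded_lt (α := W)).min _ h, (wellFounded_lt (α := W)).min_mem _ h, fun x hx =>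
    not_lt.1 ((wellFounded_lt (α := W)).not_lt_min S (x := x) hx)⟩

theorem exists_closed (F : W → W) (x : W) : ∃ δ ∈ Cl F, x < δ := by
  have hstep : ∀ a : W, ∃ b, a < b ∧ ∀ ξ ≤ a, F ξ < b := by
    intro a
    obtain ⟨b, hb⟩ := exists_ub (((countable_Iic a).image F).insert a)
    exact ⟨b, hb a (mem_insert _ _), fun ξ hξ => hb _ (mem_insert_of_mem _ ⟨ξ, hξ, rfl⟩)⟩
  choose st hst1 hst2 using hstep
  let a : ℕ → W := fun n => Nat.rec x (fun _ r => st r) n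
  have ha : ∀ n, a (n + 1) = st (a n) := fun n => rfl
  obtain ⟨b, hb⟩ := exists_ub (Set.countable_range a)
  obtain ⟨δ, hδ, hmin⟩ := exists_least (S := {u | ∀ n, a n ≤ u}) ⟨b, fun n => (hb _ ⟨n, rfl⟩).le⟩
  have hδ' : ∀ n, a n < δ := fun n => by
    have h1 : a (n + 1) ≤ δ := hδ (n + 1)
    rw [ha] at h1
    exact (hst1 _).trans_le h1
  refine ⟨δ, fun ξ hξ => ?_, hδ' 0⟩
  have h1 : ∃ n, ξ < a n := by
    by_contra hcon
    push Not at hcon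
    exact absurd (hmin ξ hcon) (not_le.2 hξ)
  obtain ⟨n, hn⟩ := h1
  have h2 : F ξ < a (n + 1) := by
    rw [ha]
    exact hst2 (a n) ξ hn.le
  exact h2.trans (hδ' (n + 1))

/-- the largest closure point below `x` -/
noncomputable def rho (F : W → W) (x : W) : W :=
  (wellFounded_lt (α := W)).min {u | ∀ δ ∈ Cl F, δ ≤ x → δ ≤ u} ⟨x, fun _ _ h => h⟩

variable {F : W → W}

theorem le_rho {x δ : W} (h : δ ∈ Cl F) (hx : δ ≤ x) : δ ≤ rho F x :=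
  (wellFounded_lt (α := W)).min_mem {u | ∀ δ ∈ Cl F, δ ≤ x → δ ≤ u} ⟨x, fun _ _ h => h⟩ δ h hx

theorem rho_min {x u : W} (h : ∀ δ ∈ Cl F, δ ≤ x → δ ≤ u) : rho F x ≤ u :=
  not_lt.1 ((wellFounded_lt (α := W)).not_lt_min {u | ∀ δ ∈ Cl F, δ ≤ x → δ ≤ u} (x := u) h)

theorem rho_le (x : W) : rho F x ≤ x := rho_min fun _ _ h => h

theorem rho_mem (x : W) : rho F x ∈ Cl F := by
  intro ξ hξ
  have h1 : ∃ δ ∈ Cl F, δ ≤ x ∧ ξ < δ := by
    by_contra hcon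
    push Not at hcon
    exact absurd (rho_min hcon) (not_le.2 hξ)
  obtain ⟨δ, h2, h3, h4⟩ := h1
  exact (h2 ξ h4).trans_le (le_rho h2 h3)

theorem rho_eq {x δ : W} (h : δ ∈ Cl F) (hx : δ ≤ x) (h' : ∀ ε ∈ Cl F, ε ≤ x → ε ≤ δ) :
    rho F x = δ := le_antisymm (rho_min h') (le_rho h hx)

theorem rho_mono {x y : W} (h : x ≤ y) : rho F x ≤ rho F y :=
  rho_min fun _ hδ hx => le_rho hδ (hx.trans h)

theorem le_rho_iff {x δ : W} (h : δ ∈ Cl F) : δ ≤ rho F x ↔ δ ≤ x :=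
  ⟨fun h1 => h1.trans (rho_le x), le_rho h⟩

/-- the successor -/
noncomputable def sc (x : W) : W := (wellFounded_lt (α := W)).min {y | x < y} (exists_gt x)

theorem lt_sc (x : W) : x < sc x := (wellFounded_lt (α := W)).min_mem {y | x < y} (exists_gt x)

theorem sc_le {x y : W} (h : x < y) : sc x ≤ y :=
  not_lt.1 ((wellFounded_lt (α := W)).not_lt_min {y | x < y} (x := y) h)

theorem lt_sc_iff {x y : W} : y < sc x ↔ y ≤ x :=
  ⟨fun h => by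
    by_contra hcon
    exact absurd (sc_le (not_le.1 hcon)) (not_le.2 h), fun h => h.trans_lt (lt_sc x)⟩

theorem sc_le_iff {x y : W} : sc x ≤ y ↔ x < y := ⟨fun h => (lt_sc x).trans_le h, sc_le⟩

theorem sc_lt_of_mem (hF : ∀ ξ, ξ < F ξ) {x δ : W} (hδ : δ ∈ Cl F) (h : x < δ) : sc x < δ :=
  (sc_le (hF x)).trans_lt (hδ x h)

theorem sc_notMem (hF : ∀ ξ, ξ < F ξ) (x : W) : sc x ∉ Cl F := fun h =>
  lt_irrefl _ (sc_lt_of_mem hF h (lt_sc x))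

theorem rho_sc (hF : ∀ ξ, ξ < F ξ) (x : W) : rho F (sc x) = rho F x := by
  refine le_antisymm (rho_min fun δ hδ hx => ?_) (rho_mono (lt_sc x).le)
  rcases hx.lt_or_eq with h | h
  · exact le_rho hδ (lt_sc_iff.1 h)
  · exact absurd (h ▸ hδ) (sc_notMem hF x)

/-- the next closure point -/
theorem exists_next (F : W → W) (x : W) : ∃ ν ∈ Cl F, x < ν ∧ ∀ ε ∈ Cl F, x < ε → ν ≤ ε := by
  obtain ⟨δ, h1, h2⟩ := exists_closed F x
  obtain ⟨ν, hν, hmin⟩ := exists_least (S := {δ | δ ∈ Cl F ∧ x < δ}) ⟨δ, h1, h2⟩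
  exact ⟨ν, hν.1, hν.2, fun ε h3 h4 => hmin ε ⟨h3, h4⟩⟩

/-- the pressing down lemma -/
theorem pressing (F g : W → W) (b0 : W) (hg : ∀ δ ∈ Cl F, b0 < δ → g δ < δ) :
    ∃ γ, ¬ {δ | δ ∈ Cl F ∧ b0 < δ ∧ g δ = γ}.Countable := by
  by_contra hcon
  push Not at hcon
  choose b hb using fun γ => exists_ub (hcon γ)
  obtain ⟨δ, hδ, hbδ⟩ := exists_closed (fun x => max (F x) (b x)) b0
  have h1 : δ ∈ Cl F := fun ξ hξ => (le_max_left _ _).trans_lt (hδ ξ hξ)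
  have h2 : b (g δ) < δ := (le_max_right _ _).trans_lt (hδ _ (hg δ h1 hbδ))
  exact lt_asymm h2 (hb (g δ) δ ⟨h1, hbδ, rfl⟩)

/-- in an uncountable family of levels two of the coherent functions disagree above `γ` -/
theorem disagree {S : Set W} (hS : ¬ S.Countable) (b : W → W) (γ : W) :
    ∃ δ ∈ S, ∃ δ' ∈ S, δ < δ' ∧ b δ < δ' ∧ ∃ ξ, γ ≤ ξ ∧ ξ < δ ∧
      (∀ η, γ ≤ η → η < ξ → cg δ η = cg δ' η) ∧ cg δ ξ ≠ cg δ' ξ := by
  by_contra hcon
  have hagr : ∀ δ ∈ S, ∀ δ' ∈ S, δ < δ' → b δ < δ' → ∀ ξ, γ ≤ ξ → ξ < δ → cg δ ξ = cg δ' ξ := by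
    intro δ hδ δ' hδ' h1 h2 ξ h3 h4
    by_contra h5
    obtain ⟨m, ⟨h6, h7, h8⟩, hmin⟩ := exists_least (S := {ξ | γ ≤ ξ ∧ ξ < δ ∧ cg δ ξ ≠ cg δ' ξ})
      ⟨ξ, h3, h4, h5⟩
    refine hcon ⟨δ, hδ, δ', hδ', h1, h2, m, h6, h7, fun η h9 h10 => ?_, h8⟩
    by_contra h11
    exact absurd (hmin η ⟨h9, h10.trans h7, h11⟩) (not_le.2 h10)
  choose d hdS hd using fun ξ : W => exists_gt_of_not_countable hS ξ
  let f : W → ℕ := fun ξ => cg (d ξ) ξ
  have hf : ∀ δ ∈ S, ∀ ξ, γ ≤ ξ → ξ < δ → f ξ = cg δ ξ := by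
    intro δ hδ ξ h1 h2
    obtain ⟨δ', hδ', h3⟩ := exists_gt_of_not_countable hS (max (max δ (d ξ)) (max (b δ) (b (d ξ))))
    have h4 : δ < δ' := ((le_max_left _ _).trans (le_max_left _ _)).trans_lt h3
    have h5 : d ξ < δ' := ((le_max_right _ _).trans (le_max_left _ _)).trans_lt h3
    have h6 : b δ < δ' := ((le_max_left _ _).trans (le_max_right _ _)).trans_lt h3
    have h7 : b (d ξ) < δ' := ((le_max_right _ _).trans (le_max_right _ _)).trans_lt h3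
    exact (hagr _ (hdS ξ) δ' hδ' h5 h7 ξ h1 (hd ξ)).trans (hagr δ hδ δ' hδ' h4 h6 ξ h1 h2).symm
  obtain ⟨v, hv⟩ : ∃ v, ¬ {ξ | γ ≤ ξ ∧ f ξ = v}.Countable := by
    by_contra hcon
    push Not at hcon
    apply not_countable_W
    refine ((countable_Iio γ).union (Set.countable_iUnion hcon)).mono fun ξ _ => ?_
    rcases lt_or_ge ξ γ with h | h
    · exact Or.inl h
    · exact Or.inr (mem_iUnion.2 ⟨f ξ, h, rfl⟩)
  have hinf : {ξ | γ ≤ ξ ∧ f ξ = v}.Infinite := fun h => hv h.countable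
  obtain ⟨T, hT, hTc, hTi⟩ : ∃ T ⊆ {ξ | γ ≤ ξ ∧ f ξ = v}, T.Countable ∧ T.Infinite := by
    let g := hinf.natEmbedding
    exact ⟨range fun n => (g n).1, by rintro _ ⟨n, rfl⟩; exact (g n).2, countable_range _,
      Set.infinite_range_of_injective fun a b hab => g.injective (Subtype.ext hab)⟩
  obtain ⟨c, hc⟩ := exists_ub hTc
  obtain ⟨δ, hδS, hδ⟩ := exists_gt_of_not_countable hS c
  apply hTi
  refine (cg_fin δ v).subset fun ξ hξ => ?_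
  have h1 := (hc ξ hξ).trans hδ
  refine ⟨h1, ?_⟩
  rw [← hf δ hδS ξ (hT hξ).1 h1, (hT hξ).2]

end Pool.Agent.TH778.SA
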