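import Pool.Agent.TH778.SA.Rel

/-!
# Finite approximations of a monotone surjection
-/

set_option autoImplicit false

namespace Pool.Agent.TH778.SA

open Set Cardinal Pool.Agent.Helper330.DPK.Coh

/-- a triple `(l, c, k)`: the leaves which agree with `l` below `c` are mapped to `k` -/
abbrev Tr : Type := LL × W × LL

/-- the condition on a single triple -/
structure Gd (F : W → W) (K : Set LL) (u : Tr) : Prop where
  mem : u.2.2 ∈ K
  le : u.2.1 ≤ sc (ht u.1)
  rl : rho F (ht u.1) = rho F (ht u.2.2)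
  rc : rho F u.2.1 = rho F (ht u.2.2)
  nm : u.2.1 ∉ Cl F

/-- the condition on a pair of triples -/
structure Pq (F : W → W) (u v : Tr) : Prop where
  ord : ∀ s : Bool, rel s u.2.2.1 v.2.2.1 →
    rel s u.1.1 v.1.1 ∧ dl u.1.1 v.1.1 < u.2.1 ∧ dl u.1.1 v.1.1 < v.2.1
  agr : ∀ δ ∈ Cl F, δ ≤ ht u.2.2 → δ ≤ ht v.2.2 → (Agree δ u.1.1 v.1.1 ↔ Agree δ u.2.2.1 v.2.2.1)

theorem Agree.comm {δ : W} {x y : Sq} : Agree δ x y ↔ Agree δ y x := ⟨Agree.symm, Agree.symm⟩

theorem bool_ne {s t : Bool} (h : ¬ s = t) : s = !t := by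
  cases s <;> cases t <;> first | rfl | exact absurd rfl h

theorem Pq.symm {F : W → W} {u v : Tr} (h : Pq F u v) : Pq F v u := by
  refine ⟨fun s hs => ?_, fun δ h1 h2 h3 => ?_⟩
  · obtain ⟨h1, h2, h3⟩ := h.ord (!s) (rel_not.2 hs)
    rw [dl_comm]
    exact ⟨rel_not.1 h1, h3, h2⟩
  · rw [Agree.comm, h.agr δ h1 h3 h2, Agree.comm]

theorem Pq.refl {F : W → W} (u : Tr) : Pq F u u :=
  ⟨fun _ hs => absurd hs (rel_irrefl _), fun _ _ _ _ => ⟨fun _ => Agree.refl _ _,
    fun _ => Agree.refl _ _⟩⟩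

/-- conditions -/
structure IsCond (F : W → W) (K : Set LL) (p : Finset Tr) : Prop where
  gd : ∀ u ∈ p, Gd F K u
  pq : ∀ u ∈ p, ∀ v ∈ p, Pq F u v

variable {F : W → W} {K : Set LL}

open Classical in
theorem IsCond.insert {p : Finset Tr} (hp : IsCond F K p) {u : Tr} (hu : Gd F K u)
    (h : ∀ v ∈ p, Pq F u v) : IsCond F K (insert u p) := by
  refine ⟨fun v hv => ?_, fun v hv w hw => ?_⟩
  · rcases Finset.mem_insert.1 hv with rfl | hv
    · exact hu
    · exact hp.gd v hv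
  · rcases Finset.mem_insert.1 hv with h1 | hv
    · rcases Finset.mem_insert.1 hw with h2 | hw
      · rw [h1, h2]
        exact Pq.refl u
      · rw [h1]
        exact h w hw
    · rcases Finset.mem_insert.1 hw with h2 | hw
      · rw [h2]
        exact (h v hv).symm
      · exact hp.pq v hv w hw

/-- a closure point is below the height of the image iff it is below the height of the cone -/
theorem Gd.le_iff {u : Tr} (hu : Gd F K u) {δ : W} (hδ : δ ∈ Cl F) : δ ≤ u.2.1 ↔ δ ≤ ht u.2.2 := by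
  rw [← le_rho_iff hδ, hu.rc, le_rho_iff hδ]

theorem Gd.le_iff' {u : Tr} (hu : Gd F K u) {δ : W} (hδ : δ ∈ Cl F) :
    δ ≤ ht u.1 ↔ δ ≤ ht u.2.2 := by
  rw [← le_rho_iff hδ, hu.rl, le_rho_iff hδ]

/-- every leaf is covered in some extension -/
theorem ext_y (hF : ∀ ξ, ξ < F ξ) (hK : Near F K) (hKne : K.Nonempty) {p : Finset Tr}
    (hp : IsCond F K p) (y : LL) : ∃ q, IsCond F K q ∧ p ⊆ q ∧ ∃ u ∈ q, Agree u.2.1 y.1 u.1.1 := by
  classical
  by_cases hcov : ∃ u ∈ p, Agree u.2.1 y.1 u.1.1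
  · exact ⟨p, hp, subset_rfl, hcov⟩
  push Not at hcov
  -- it suffices to find a new triple
  suffices h : ∃ u, Gd F K u ∧ Agree u.2.1 y.1 u.1.1 ∧ ∀ v ∈ p, Pq F u v by
    obtain ⟨u, h1, h2, h3⟩ := h
    exact ⟨insert u p, hp.insert h1 h3, Finset.subset_insert _ _, u, Finset.mem_insert_self _ _, h2⟩
  -- the leaf for the level `c = sc γ`
  have hleaf : ∀ γ : W, γ ≤ ht y → ∃ l : LL, sc γ ≤ sc (ht l) ∧ rho F (ht l) = rho F γ ∧
      Agree (sc γ) y.1 l.1 := by
    intro γ hγ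
    by_cases h1 : rho F (ht y) = rho F γ
    · refine ⟨y, sc_le (hγ.trans_lt (lt_sc _)), h1, Agree.refl _ _⟩
    · have h2 : sc γ ≤ ht y := by
        apply sc_le
        rcases hγ.lt_or_eq with h3 | h3
        · exact h3
        · exact absurd (by rw [h3]) h1
      obtain ⟨l, h3, h4⟩ := exists_attach y h2
      exact ⟨l, by rw [h3]; exact (lt_sc _).le, by rw [h3]; exact rho_sc hF γ, h4⟩
  rcases p.eq_empty_or_nonempty with rfl | hpne
  · -- the empty condition
    obtain ⟨k1, hk1⟩ := hKne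
    obtain ⟨k, hk, hky⟩ : ∃ k ∈ K, rho F (ht k) ≤ rho F (ht y) := by
      by_cases h1 : rho F (ht k1) ≤ rho F (ht y)
      · exact ⟨k1, hk1, h1⟩
      · rw [not_le] at h1
        obtain ⟨ν, h2, h3, h4⟩ := exists_next F (ht y)
        have h5 : ht y < rho F (ht k1) := by
          by_contra h6
          exact absurd (le_rho (rho_mem _) (not_lt.1 h6)) (not_le.2 h1)
        have h6 : ν ≤ ht k1 := (h4 _ (rho_mem _) h5).trans (rho_le _)
        obtain ⟨k, hk, -, -, h7⟩ := hK true k1 hk1 ν h2 h6 (ht y) h3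
        refine ⟨k, hk, le_rho (rho_mem _) ?_⟩
        by_contra h8
        exact absurd (h4 _ (rho_mem _) (not_le.1 h8)) (not_le.2 ((rho_le _).trans_lt h7))
    obtain ⟨l, h1, h2, h3⟩ := hleaf (rho F (ht k)) (hky.trans (rho_le _))
    have h4 : rho F (rho F (ht k)) = rho F (ht k) :=
      le_antisymm (rho_le _) (le_rho (rho_mem _) le_rfl)
    refine ⟨(l, sc (rho F (ht k)), k), ⟨hk, h1, ?_, ?_, sc_notMem hF _⟩, h3, by simp⟩
    · show rho F (ht l) = rho F (ht k)
      rw [h2, h4]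
    · show rho F (sc (rho F (ht k))) = rho F (ht k)
      rw [rho_sc hF, h4]
  have hney : ∀ u ∈ p, u.1.1 ≠ y.1 := by
    intro u hu h
    exact hcov u hu (by rw [h]; exact Agree.refl _ _)
  have hneyL : ∀ u ∈ p, u.1 ≠ y := fun u hu h => hney u hu (by rw [h])
  have hdc : ∀ u ∈ p, dl u.1.1 y.1 < u.2.1 := by
    intro u hu
    by_contra h
    exact hcov u hu (((agree_iff (hney u hu)).2 (not_lt.1 h)).symm)
  obtain ⟨u0, hu0, hmax⟩ := p.exists_max_image (fun u => dl u.1.1 y.1) hpne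
  have hmax' : ∀ u ∈ p, dl u.1.1 y.1 ≤ dl u0.1.1 y.1 := hmax
  obtain ⟨s, hs⟩ : ∃ s : Bool, rel s u0.1.1 y.1 := by
    rcases rel_total true (hney u0 hu0) with h | h
    · exact ⟨true, h⟩
    · exact ⟨false, rel_not.2 h⟩
  obtain ⟨γ, hγ⟩ : ∃ γ, γ = dl u0.1.1 y.1 := ⟨_, rfl⟩
  obtain ⟨μ, hμ⟩ : ∃ μ, μ = rho F γ := ⟨_, rfl⟩
  have hμC : μ ∈ Cl F := by rw [hμ]; exact rho_mem _
  have hμγ : μ ≤ γ := by rw [hμ]; exact rho_le _
  obtain ⟨ν, hν1, hν2, hν3⟩ := exists_next F μ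
  have hγν : γ < ν := by
    by_contra h
    have := le_rho hν1 (not_lt.1 h)
    rw [← hμ] at this
    exact absurd this (not_le.2 hν2)
  have hγy : γ ≤ ht y := by rw [hγ]; exact dl_le' (hneyL u0 hu0)
  have hag0 : Agree μ u0.1.1 y.1 := by
    rw [agree_iff (hney u0 hu0), ← hγ]
    exact hμγ
  have hμk0 : μ ≤ ht u0.2.2 := by
    rw [← (hp.gd u0 hu0).le_iff hμC]
    exact hμγ.trans (by rw [hγ]; exact (hdc u0 hu0).le)
  -- the maximal image on the side `s`
  obtain ⟨km, hkm, hkmax⟩ := rel_max s ((p.filter fun u => rel s u.1.1 y.1).image fun u => u.2.2)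
    ⟨u0.2.2, Finset.mem_image.2 ⟨u0, Finset.mem_filter.2 ⟨hu0, hs⟩, rfl⟩⟩
  obtain ⟨um, hum, rfl⟩ := Finset.mem_image.1 hkm
  obtain ⟨hum, hums⟩ := Finset.mem_filter.1 hum
  have hkmax' : ∀ u ∈ p, rel s u.1.1 y.1 → u.2.2 = um.2.2 ∨ rel s u.2.2.1 um.2.2.1 := fun u hu h =>
    hkmax _ (Finset.mem_image.2 ⟨u, Finset.mem_filter.2 ⟨hu, h⟩, rfl⟩)
  -- the maximum is taken in the block of `u0`
  have hblock : Agree μ u0.2.2.1 um.2.2.1 ∧ μ ≤ ht um.2.2 := by
    rcases hkmax' u0 hu0 hs with h1 | h1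
    · rw [← h1]
      exact ⟨Agree.refl _ _, hμk0⟩
    · obtain ⟨h2, h3, h4⟩ := (hp.pq u0 hu0 um hum).ord s h1
      have h5 : Agree μ u0.1.1 um.1.1 := rel_between h2 hums hag0
      have h6 : μ ≤ ht um.2.2 := by
        rw [← (hp.gd um hum).le_iff hμC]
        exact ((agree_iff (rel_ne h2)).1 h5).trans h4.le
      exact ⟨((hp.pq u0 hu0 um hum).agr μ hμC hμk0 h6).1 h5, h6⟩
  have hagm : Agree μ um.1.1 y.1 :=
    ((((hp.pq u0 hu0 um hum).agr μ hμC hμk0 hblock.2).2 hblock.1).symm).trans hag0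
  -- nothing on the other side is in the block of `um` at level `ν`
  have hother : ∀ u ∈ p, rel s y.1 u.1.1 → ν ≤ ht um.2.2 → ¬ Agree ν um.2.2.1 u.2.2.1 := by
    intro u hu h1 h2 h3
    have h4 : ν ≤ ht u.2.2 := ht_le_of_agree h3 h2
    have h5 := ((hp.pq um hum u hu).agr ν hν1 h2 h4).2 h3
    have h6 : Agree ν um.1.1 y.1 := rel_between hums h1 h5
    have h7 := (agree_iff (hney um hum)).1 h6
    exact absurd (h7.trans ((hmax' um hum).trans hγ.ge)) (not_le.2 hγν)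
  have hotherle : ∀ u ∈ p, rel s y.1 u.1.1 → u.2.2 = um.2.2 ∨ rel s um.2.2.1 u.2.2.1 := by
    intro u hu h1
    by_cases h2 : u.2.2 = um.2.2
    · exact Or.inl h2
    right
    rcases rel_total s (x := um.2.2.1) (y := u.2.2.1) (fun h => h2 (Subtype.ext h.symm)) with h3 | h3
    · exact h3
    · exact absurd (rel_trans hums h1) fun h =>
        rel_asymm h ((hp.pq u hu um hum).ord s h3).1
  -- the image of `y`
  obtain ⟨k, hk, hkμ, hkν, hk0, hk1, hk2⟩ : ∃ k ∈ K, μ ≤ ht k ∧ ht k < ν ∧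
      Agree μ u0.2.2.1 k.1 ∧ (k = um.2.2 ∨ rel s um.2.2.1 k.1) ∧
      ∀ u ∈ p, rel s y.1 u.1.1 → u.2.2 = k ∨ rel s k.1 u.2.2.1 := by
    by_cases h1 : ht um.2.2 < ν
    · exact ⟨um.2.2, (hp.gd um hum).mem, hblock.2, h1, hblock.1, Or.inl rfl, hotherle⟩
    · rw [not_lt] at h1
      obtain ⟨ζ, hζ1, hζ2, hζ3⟩ : ∃ ζ, ζ < ν ∧ μ ≤ ζ ∧
          ∀ u ∈ p, rel s y.1 u.1.1 → dl um.2.2.1 u.2.2.1 < ζ := by
        let T : Finset W := insert μ ((p.filter fun u => rel s y.1 u.1.1).image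
          fun u => sc (dl um.2.2.1 u.2.2.1))
        refine ⟨T.max' ⟨μ, Finset.mem_insert_self _ _⟩, ?_, T.le_max' _ (Finset.mem_insert_self _ _),
          ?_⟩
        · refine (Finset.max'_lt_iff T _).2 ?_
          intro b hb
          rcases Finset.mem_insert.1 hb with rfl | hb
          · exact hν2
          · obtain ⟨u, hu, rfl⟩ := Finset.mem_image.1 hb
            obtain ⟨hu, hu'⟩ := Finset.mem_filter.1 hu
            apply sc_lt_of_mem hF hν1
            have h2 := hother u hu hu' h1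
            have h3 : um.2.2.1 ≠ u.2.2.1 := by
              intro h
              rw [h] at h2
              exact h2 (Agree.refl _ _)
            rw [agree_iff h3, not_le] at h2
            exact h2
        · intro u hu hu'
          exact (lt_sc _).trans_le (T.le_max' _ (Finset.mem_insert_of_mem
            (Finset.mem_image.2 ⟨u, Finset.mem_filter.2 ⟨hu, hu'⟩, rfl⟩)))
      obtain ⟨k, hk, h2, h3, h4⟩ := hK s um.2.2 (hp.gd um hum).mem ν hν1 h1 ζ hζ1
      have h5 : Agree μ um.2.2.1 k.1 := h2.mono hζ2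
      refine ⟨k, hk, ht_le_of_agree h5 hblock.2, h4, hblock.1.trans h5, Or.inr h3, ?_⟩
      intro u hu hu'
      right
      rcases hotherle u hu hu' with h6 | h6
      · exact absurd (by rw [h6]; exact Agree.refl _ _) (hother u hu hu' h1)
      · have h7 : dl u.2.2.1 um.2.2.1 < ζ := by
          rw [dl_comm]
          exact hζ3 u hu hu'
        exact rel_of_agree' h6 (hζ3 u hu hu') h2
  obtain ⟨l, hl1, hl2, hl3⟩ := hleaf γ hγy
  have hrk : rho F (ht k) = μ := by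
    refine rho_eq hμC hkμ fun ε hε h1 => ?_
    by_contra h2
    exact absurd (hν3 ε hε (not_le.1 h2)) (not_le.2 (h1.trans_lt hkν))
  refine ⟨(l, sc γ, k), ⟨hk, hl1, ?_, ?_, sc_notMem hF _⟩, hl3, ?_⟩
  · show rho F (ht l) = rho F (ht k)
    rw [hl2, hrk, hμ]
  · show rho F (sc γ) = rho F (ht k)
    rw [rho_sc hF, hrk, hμ]
  intro v hv
  have hvl : ∀ δ, δ ≤ γ → (Agree δ l.1 v.1.1 ↔ Agree δ y.1 v.1.1) := by
    intro δ hδ
    have h1 : Agree δ y.1 l.1 := hl3.mono (hδ.trans (lt_sc _).le)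
    exact ⟨fun h => h1.trans h, fun h => h1.symm.trans h⟩
  have hdv : dl y.1 v.1.1 < sc γ := by
    rw [lt_sc_iff, dl_comm, hγ]
    exact hmax' v hv
  have hdl : dl l.1 v.1.1 = dl y.1 v.1.1 := by
    rw [dl_comm, dl_comm y.1]
    exact dl_of_agree (hney v hv) (by rw [dl_comm]; exact hdv) hl3
  refine ⟨?_, ?_⟩
  · intro s' hs'
    show rel s' l.1 v.1.1 ∧ dl l.1 v.1.1 < sc γ ∧ dl l.1 v.1.1 < v.2.1
    have hs'' : rel s' k.1 v.2.2.1 := hs'
    rw [hdl]
    refine ⟨?_, hdv, by rw [dl_comm]; exact hdc v hv⟩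
    have h1 : rel s' y.1 v.1.1 := by
      by_contra hcon
      have h2 : rel s' v.1.1 y.1 := (rel_total s' (hney v hv)).resolve_right hcon
      by_cases hss : s' = s
      · subst hss
        have h3 := hkmax' v hv h2
        rcases h3 with h3 | h3
        · rcases hk1 with h4 | h4
          · rw [h3, ← h4] at hs''
            exact rel_irrefl _ hs''
          · rw [h3] at hs''
            exact rel_asymm hs'' h4
        · rcases hk1 with h4 | h4
          · rw [h4] at hs''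
            exact rel_asymm hs'' h3
          · exact rel_asymm (rel_trans hs'' h3) h4
      · rw [bool_ne hss, rel_not] at h2 hs''
        rcases hk2 v hv h2 with h3 | h3
        · rw [h3] at hs''
          exact rel_irrefl _ hs''
        · exact rel_asymm hs'' h3
    exact rel_of_agree' h1 hdv hl3
  · intro δ hδ h1 h2
    have h3 : δ ≤ μ := by
      have : δ ≤ rho F (ht k) := le_rho hδ h1
      rwa [hrk] at this
    show Agree δ l.1 v.1.1 ↔ Agree δ k.1 v.2.2.1
    rw [hvl δ (h3.trans hμγ)]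
    have h4 := (hp.pq u0 hu0 v hv).agr δ hδ (h3.trans hμk0) h2
    have h5 : Agree δ u0.1.1 y.1 := hag0.mono h3
    have h6 : Agree δ u0.2.2.1 k.1 := hk0.mono h3
    exact ⟨fun h => h6.symm.trans (h4.1 (h5.trans h)), fun h => h5.symm.trans (h4.2 (h6.trans h))⟩

end Pool.Agent.TH778.SA
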