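import Pool.Agent.W684.FM.Ambient

/-!
# Definitions: strongly surjective, real and Aronszajn linear orders
-/

set_option autoImplicit false

namespace Pool.Agent.TH778.SA

open Pool.Agent.W684.FM

/-- `L` is strongly surjective: for every nonempty suborder `K` of `L` there is a surjection from
`L` onto `K` which is monotone (in the weak sense). -/
def StronglySurjective (L : Type) [LinearOrder L] : Prop :=
  ∀ K : Set L, K.Nonempty → ∃ f : L → K, Monotone f ∧ Function.Surjective f

/-- `L` is real: it is isomorphic to a suborder of the real line. -/
def IsReal (L : Type) [LinearOrder L] : Prop := ∃ f : L → ℝ, StrictMono f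

/-- `L` is an Aronszajn line: it is uncountable, there is no strictly increasing and no strictly
decreasing sequence of length `ω₁` in `L`, and every real suborder of `L` is countable. -/
def IsAronszajn (L : Type) [LinearOrder L] : Prop :=
  Uncountable L ∧ (¬ ∃ f : Om1 → L, StrictMono f) ∧ (¬ ∃ f : Om1 → L, StrictAnti f) ∧
    ∀ S : Set L, IsReal S → S.Countable

end Pool.Agent.TH778.SA
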