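import Pool.Agent.TH778.SA.Chain
import Pool.Agent.TH778.SA.Defs
import Pool.Agent.W866.SS.Main

/-!
# A strongly surjective Aronszajn line from Martin's axiom
-/

set_option autoImplicit false

namespace Pool.Agent.TH778.SA

open Set Cardinal Pool.Agent.Helper330.DPK.Coh Pool.Agent.W684 Pool.Agent.W684.FM

theorem mk_LL_le : #LL ≤ ℵ₁ := by
  have h : (univ : Set LL) = ⋃ α : W, {x : LL | ht x = α} := by
    ext x
    simp
  rw [← Cardinal.mk_univ, h]
  refine (Cardinal.mk_iUnion_le _).trans ?_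
  rw [Cardinal.mk_ord_toType]
  have h2 : (⨆ α : W, #{x : LL | ht x = α}) ≤ ℵ₀ := by
    apply ciSup_le'
    intro α
    exact (Cardinal.le_aleph0_iff_set_countable).2 (countable_ht_eq α)
  refine (mul_le_mul' le_rfl h2).trans ?_
  rw [Cardinal.aleph_mul_aleph0]

variable {F : W → W} {K : Set LL}

theorem cover_mono {u v : Tr} (h : Pq F u v) {y y' : LL} (hy : Agree u.2.1 y.1 u.1.1)
    (hy' : Agree v.2.1 y'.1 v.1.1) {s : Bool} (hs : rel s u.2.2.1 v.2.2.1) : rel s y.1 y'.1 := by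
  obtain ⟨h1, h2, h3⟩ := h.ord s hs
  have h4 : rel s y.1 v.1.1 := rel_of_agree' h1 h2 hy.symm
  have h5 : dl y.1 v.1.1 = dl u.1.1 v.1.1 := by
    rw [dl_comm, dl_comm u.1.1]
    exact dl_of_agree (rel_ne h1).symm (by rw [dl_comm]; exact h2) hy.symm
  exact rel_of_agree h4 (by rw [h5]; exact h3) hy'.symm

theorem strongly (hMA : MartinAxiomAleph1) : StronglySurjective LL := by
  classical
  intro K hK
  obtain ⟨F, hF, hN⟩ := exists_near K
  have : Nonempty (PP F K) := ⟨⟨∅, ⟨by simp, by simp⟩⟩⟩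
  let D1 : LL → Set (PP F K) := fun y => {q | ∃ u ∈ q.1, Agree u.2.1 y.1 u.1.1}
  let D2 : K → Set (PP F K) := fun k => {q | ∃ u ∈ q.1, u.2.2 = k.1}
  have hcard : #(↥(Set.range D1 ∪ Set.range D2)) ≤ ℵ₁ := by
    have h1 : #(↥(Set.range D1)) ≤ ℵ₁ := (Cardinal.mk_range_le).trans mk_LL_le
    have h2 : #(↥(Set.range D2)) ≤ ℵ₁ := (Cardinal.mk_range_le).trans
      ((Cardinal.mk_set_le K).trans mk_LL_le)
    refine (Cardinal.mk_union_le _ _).trans ((add_le_add h1 h2).trans ?_)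
    rw [Cardinal.add_eq_self (Cardinal.aleph0_le_aleph 1)]
  obtain ⟨G, -, -, hdir, hmeet⟩ := hMA (PP F K) (ccc hF) (Set.range D1 ∪ Set.range D2) hcard (by
    rintro D (⟨y, rfl⟩ | ⟨k, rfl⟩) p
    · obtain ⟨q, h1, h2, h3⟩ := ext_y hF hN hK p.2 y
      exact ⟨⟨q, h1⟩, h3, h2⟩
    · obtain ⟨q, h1, h2, h3⟩ := ext_k hF p.2 k.1 k.2
      exact ⟨⟨q, h1⟩, h3, h2⟩)
  have hpq : ∀ p ∈ G, ∀ q ∈ G, ∀ u ∈ p.1, ∀ v ∈ q.1, Pq F u v := by
    intro p hp q hq u hu v hv
    obtain ⟨r, -, h1, h2⟩ := hdir p hp q hq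
    exact r.2.pq u (h1 hu) v (h2 hv)
  have hex : ∀ y : LL, ∃ u : Tr, ∃ p ∈ G, u ∈ p.1 ∧ Agree u.2.1 y.1 u.1.1 := by
    intro y
    obtain ⟨p, hpG, u, hu, h⟩ := hmeet (D1 y) (Or.inl ⟨y, rfl⟩)
    exact ⟨u, p, hpG, hu, h⟩
  choose u p hpG hup hu using hex
  refine ⟨fun y => ⟨(u y).2.2, ((p y).2.gd _ (hup y)).mem⟩, fun y y' hyy => ?_, fun k => ?_⟩
  · show (u y).2.2 ≤ (u y').2.2
    by_contra hcon
    have h1 : rel true (u y').2.2.1 (u y).2.2.1 := not_le.1 hcon
    have h2 := cover_mono (hpq _ (hpG y') _ (hpG y) _ (hup y') _ (hup y)) (hu y') (hu y) h1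
    exact absurd hyy (not_le.2 h2)
  · obtain ⟨q, hqG, v, hv, hvk⟩ := hmeet (D2 k) (Or.inr ⟨k, rfl⟩)
    refine ⟨v.1, Subtype.ext ?_⟩
    show (u v.1).2.2 = k.1
    by_contra hne
    have hne' : (u v.1).2.2.1 ≠ v.2.2.1 := by
      rw [hvk]
      exact fun h => hne (Subtype.ext h)
    rcases rel_total true hne' with h | h
    · exact rel_irrefl _ (cover_mono (hpq _ (hpG v.1) _ hqG _ (hup v.1) _ hv) (hu v.1)
        (Agree.refl _ _) h)
    · exact rel_irrefl _ (cover_mono (hpq _ hqG _ (hpG v.1) _ hv _ (hup v.1)) (Agree.refl _ _)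
        (hu v.1) h)

/-! ### the line of the leaves is an Aronszajn line -/

theorem exists_of_ht (α : W) : ∃ x : LL, ht x = α := by
  classical
  let y : Sq := toLex fun ξ => if ξ < α then (cg α ξ : ℝ) else if ξ = α then √2 else 0
  have hy : ∀ ξ, y ξ = if ξ < α then (cg α ξ : ℝ) else if ξ = α then √2 else 0 := fun ξ => rfl
  have hleaf : Leaf y α := by
    refine ⟨⟨0, ?_⟩, fun ξ hξ => ⟨(cg α ξ : ℚ), ?_⟩, fun ξ hξ => ?_, ?_⟩
    · rw [hy, if_neg (lt_irrefl _), if_pos rfl]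
      simp
    · rw [hy, if_pos hξ]
      simp
    · rw [hy, if_neg hξ.le.not_gt, if_neg hξ.ne']
    · refine Set.finite_empty.subset ?_
      rintro ξ ⟨h1, h2⟩
      rw [hy, if_pos h1] at h2
      exact h2 rfl
  exact ⟨⟨y, α, hleaf⟩, ht_eq hleaf⟩

theorem uncountable_LL : Uncountable LL := by
  by_contra hcon
  rw [not_uncountable_iff] at hcon
  obtain ⟨b, hb⟩ := exists_ub (Set.countable_range ht)
  obtain ⟨x, hx⟩ := exists_of_ht b
  exact lt_irrefl b (hb b ⟨x, hx⟩)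

theorem no_seq (s : Bool) (f : W → LL) (hf : ∀ α β, α < β → rel s (f α).1 (f β).1) : False := by
  classical
  have hinj : Function.Injective f := by
    intro α β h
    by_contra hne
    rcases lt_or_gt_of_ne hne with h1 | h1
    · exact rel_ne (hf _ _ h1) (by rw [h])
    · exact rel_ne (hf _ _ h1) (by rw [h])
  have hmain : ∀ β : W, ∃ a, ∀ α, a ≤ α → β ≤ ht (f α) ∧ Agree β (f a).1 (f α).1 := by
    intro β
    have h1 : ¬ {α | β ≤ ht (f α)}.Countable := by
      intro h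
      apply not_countable_W
      have h2 : {α | ht (f α) < β}.Countable :=
        Set.countable_of_injective_of_countable_image (f := f) hinj.injOn
          ((countable_ht_lt β).mono (by rintro _ ⟨α, h3, rfl⟩; exact h3))
      refine (h.union h2).mono fun α _ => ?_
      rcases le_or_gt β (ht (f α)) with h3 | h3
      · exact Or.inl h3
      · exact Or.inr h3
    obtain ⟨t, ht'⟩ := pigeon h1 (fun α => att β (f α)) (countable_ht_eq β)
      (fun α hα => att_ht hα)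
    obtain ⟨β0⟩ : Nonempty W := inferInstance
    obtain ⟨a, ⟨ha1, ha2⟩, -⟩ := exists_gt_of_not_countable ht' β0
    refine ⟨a, fun α hα => ?_⟩
    have hag : Agree β (f a).1 (f α).1 := by
      rcases hα.eq_or_lt with h2 | h2
      · rw [h2]
        exact Agree.refl _ _
      obtain ⟨b, ⟨hb1, hb2⟩, hb3⟩ := exists_gt_of_not_countable ht' α
      refine rel_between (hf _ _ h2) (hf _ _ hb3) ?_
      have h3 := att_agree (x := f a) ha1
      have h4 := att_agree (x := f b) hb1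
      have h5 : att β (f a) = att β (f b) := ha2.trans hb2.symm
      rw [h5] at h3
      exact h3.trans h4.symm
    exact ⟨ht_le_of_agree hag ha1, hag⟩
  choose a ha using hmain
  refine no_branch (fun β => f (a β)) (fun β => (ha β _ le_rfl).1) fun β γ hβγ => ?_
  have h1 := (ha β (max (a β) (a γ)) (le_max_left _ _)).2
  have h2 := (ha γ (max (a β) (a γ)) (le_max_right _ _)).2
  exact h1.trans (h2.mono hβγ).symm

theorem no_real (S : Set LL) (hS : IsReal S) : S.Countable := by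
  classical
  obtain ⟨f, hf⟩ := hS
  by_contra hSc
  obtain ⟨x0, hx0⟩ : S.Nonempty := by
    by_contra h
    rw [Set.not_nonempty_iff_eq_empty] at h
    exact hSc (by rw [h]; exact Set.countable_empty)
  let d : ℚ × ℚ → S := fun q => if h : ∃ z : S, (q.1 : ℝ) < f z ∧ f z < q.2 then h.choose
    else ⟨x0, hx0⟩
  have hd : ∀ q : ℚ × ℚ, (∃ z : S, (q.1 : ℝ) < f z ∧ f z < q.2) →
      (q.1 : ℝ) < f (d q) ∧ f (d q) < q.2 := by
    intro q h
    have : d q = h.choose := dif_pos h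
    rw [this]
    exact h.choose_spec
  obtain ⟨δ, hδ⟩ := exists_ub (Set.countable_range fun q => ht (d q).1)
  have hδ' : ∀ q, ht (d q).1 < δ := fun q => hδ _ ⟨q, rfl⟩
  have h1 : ¬ {x | x ∈ S ∧ δ ≤ ht x}.Countable := by
    intro h
    apply hSc
    refine (h.union (countable_ht_lt δ)).mono fun x hx => ?_
    rcases le_or_gt δ (ht x) with h3 | h3
    · exact Or.inl ⟨hx, h3⟩
    · exact Or.inr h3
  obtain ⟨t, ht'⟩ := pigeon h1 (fun x => att δ x) (countable_ht_eq δ) (fun x hx => att_ht hx.2)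
  obtain ⟨A, hA⟩ : ∃ A : Set LL, A = {a | a ∈ {x | x ∈ S ∧ δ ≤ ht x} ∧ att δ a = t} := ⟨_, rfl⟩
  rw [← hA] at ht'
  have hAS : ∀ a ∈ A, a ∈ S ∧ δ ≤ ht a ∧ att δ a = t := by
    intro a ha
    rw [hA] at ha
    exact ⟨ha.1.1, ha.1.2, ha.2⟩
  have hag : ∀ a ∈ A, ∀ b ∈ A, Agree δ a.1 b.1 := by
    intro a ha b hb
    obtain ⟨-, h2, h3⟩ := hAS a ha
    obtain ⟨-, h4, h5⟩ := hAS b hb
    have h6 := att_agree h2
    have h7 := att_agree h4
    rw [h3] at h6
    rw [h5] at h7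
    exact h6.trans h7.symm
  have hno : ∀ x ∈ A, ∀ z ∈ A, ∀ y ∈ A, x < z → z < y → False := by
    intro x hx z hz y hy hxz hzy
    have hx' := (hAS x hx).1
    have hz' := (hAS z hz).1
    have hy' := (hAS y hy).1
    have h2 : f ⟨x, hx'⟩ < f ⟨z, hz'⟩ := hf hxz
    have h3 : f ⟨z, hz'⟩ < f ⟨y, hy'⟩ := hf hzy
    obtain ⟨q1, h4, h5⟩ := exists_rat_btwn h2
    obtain ⟨q2, h6, h7⟩ := exists_rat_btwn h3
    obtain ⟨h8, h9⟩ := hd (q1, q2) ⟨⟨z, hz'⟩, h5, h6⟩
    have h10 : (⟨x, hx'⟩ : S) < d (q1, q2) := hf.lt_iff_lt.1 (h4.trans h8)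
    have h11 : d (q1, q2) < ⟨y, hy'⟩ := hf.lt_iff_lt.1 (h9.trans h7)
    have h12 : Agree δ x.1 (d (q1, q2)).1.1 :=
      rel_between (s := true) (z := y.1) h10 h11 (hag x hx y hy)
    exact absurd (ht_le_of_agree h12 (hAS x hx).2.1) (not_le.2 (hδ' _))
  apply ht'
  obtain ⟨a, ha⟩ : A.Nonempty := by
    by_contra h
    rw [Set.not_nonempty_iff_eq_empty] at h
    exact ht' (by rw [h]; exact Set.countable_empty)
  have h2 : (A ∩ Ioi a).Subsingleton := by
    intro b hb c hc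
    by_contra hne
    rcases lt_or_gt_of_ne hne with h | h
    · exact hno a ha b hb.1 c hc.1 hb.2 h
    · exact hno a ha c hc.1 b hb.1 hc.2 h
  have h3 : (A ∩ Iio a).Subsingleton := by
    intro b hb c hc
    by_contra hne
    rcases lt_or_gt_of_ne hne with h | h
    · exact hno b hb.1 c hc.1 a ha h hc.2
    · exact hno c hc.1 b hb.1 a ha h hb.2
  refine ((h2.countable.union h3.countable).union (Set.countable_singleton a)).mono ?_
  intro b hb
  rcases lt_trichotomy a b with h | h | h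
  · exact Or.inl (Or.inl ⟨hb, h⟩)
  · exact Or.inr h.symm
  · exact Or.inl (Or.inr ⟨hb, h⟩)

theorem aronszajn : IsAronszajn LL := by
  refine ⟨uncountable_LL, ?_, ?_, no_real⟩
  · rintro ⟨f, hf⟩
    exact no_seq true f fun α β h => hf h
  · rintro ⟨f, hf⟩
    exact no_seq false f fun α β h => hf h

theorem real (hMA : MartinAxiomAleph1) :
    ∃ (L : Type) (_ : LinearOrder L), Uncountable L ∧ IsReal L ∧ StronglySurjective L := by
  obtain ⟨X, hX1, hX2, -⟩ := Pool.Agent.W866.SS.main hMA ∅ (by simp)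
  refine ⟨X, inferInstance, ?_, ⟨fun x => x.1, fun x y h => h⟩, ?_⟩
  · by_contra hcon
    rw [not_uncountable_iff] at hcon
    have := Cardinal.mk_le_aleph0 (α := X)
    rw [hX1] at this
    exact absurd this (not_le.2 Cardinal.aleph0_lt_aleph_one)
  · intro K hK
    obtain ⟨f, hf1, hf2⟩ := hX2 (Subtype.val '' K) (by rintro _ ⟨k, -, rfl⟩; exact k.2)
      (hK.image _)
    have h1 : ∀ x : X, ∃ k : K, k.1.1 = f x.1 := by
      intro x
      have : f x.1 ∈ f '' X := ⟨x.1, x.2, rfl⟩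
      rw [hf2] at this
      obtain ⟨k, hk, h⟩ := this
      exact ⟨⟨k, hk⟩, h⟩
    choose g hg using h1
    refine ⟨g, fun x y hxy => ?_, fun k => ?_⟩
    · show (g x).1.1 ≤ (g y).1.1
      rw [hg, hg]
      exact hf1 x.2 y.2 hxy
    · have h2 : k.1.1 ∈ Subtype.val '' K := ⟨k.1, k.2, rfl⟩
      rw [← hf2] at h2
      obtain ⟨x, hx, hxk⟩ := h2
      refine ⟨⟨x, hx⟩, Subtype.ext (Subtype.ext ?_)⟩
      rw [hg]
      exact hxk

end Pool.Agent.TH778.SA
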