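import Pool.Agent.TH778.SA.Cond

/-!
# Every element of `K` is an image in some extension
-/

set_option autoImplicit false

namespace Pool.Agent.TH778.SA

open Set Cardinal Pool.Agent.Helper330.DPK.Coh

/-- For `x` before `y ≤ y' < z` (in the sense of `rel s`) with first difference of `y'`, `z` at `ξ`,
where `x` is strictly before `z` with first difference `η ≤ ξ`. -/
theorem dl_new {s : Bool} {x y z w : Sq} {ξ : W} (hxy : x = y ∨ rel s x y) (hyz : rel s y z)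
    (hd : dl y z = ξ) (hyw : Agree ξ y w) (h1 : rr s (y ξ) (w ξ)) (h2 : rr s (w ξ) (z ξ)) :
    rel s x w ∧ dl x w = dl x z := by
  have hxz : rel s x z := by
    rcases hxy with h | h
    · rw [h]; exact hyz
    · exact rel_trans h hyz
  have hyw' : rel s y w := rel_of hyw h1
  have hxw : rel s x w := by
    rcases hxy with h | h
    · rw [h]; exact hyw'
    · exact rel_trans h hyw'
  have hzw : Agree ξ z w := by
    have h3 : Agree ξ y z := by
      rw [agree_iff (rel_ne hyz), hd]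
    exact h3.symm.trans hyw
  have hwz : rel s w z := rel_of hzw.symm h2
  refine ⟨hxw, ?_⟩
  -- `x` and `w` agree below `dl x z`
  have h4 : Agree (dl x z) x w := rel_between hxw hwz (agree_dl (rel_ne hxz))
  apply dl_eq_of h4
  have h5 : dl x z ≤ ξ := by
    rcases hxy with h | h
    · rw [h, hd]
    · by_contra hcon
      rw [not_le] at hcon
      have h6 : Agree (dl x z) x y := rel_between h hyz (agree_dl (rel_ne hxz))
      have h7 : Agree (dl x z) y z := h6.symm.trans (agree_dl (rel_ne hxz))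
      rw [agree_iff (rel_ne hyz), hd] at h7
      exact absurd hcon (not_lt.2 h7)
  rcases h5.lt_or_eq with h6 | h6
  · rw [← hzw _ h6]
    exact dl_ne (rel_ne hxz)
  · rw [h6]
    -- at `ξ`: `x ξ ≤ y ξ < w ξ`
    rw [h6] at h4
    rcases hxy with h | h
    · rw [h]
      exact rr_ne h1
    · intro h7
      have h8 : Agree ξ x y := h4.trans hyw.symm
      have h9 : rel s y x := rel_of h8.symm (by rw [h7]; exact h1)
      exact rel_asymm h h9

variable {F : W → W} {K : Set LL}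

/-- a leaf of the right height between two finite families of triples of one block -/
theorem exists_between {Lf Rt : Finset Tr} {z : LL} {μ ν : W} (hμz : μ ≤ ht z) (hμν : μ < ν)
    (hLz : ∀ u ∈ Lf, Agree μ z.1 u.1.1) (hRz : ∀ u ∈ Rt, Agree μ z.1 u.1.1)
    (hLc : ∀ u ∈ Lf, μ < u.2.1) (hRc : ∀ u ∈ Rt, μ < u.2.1)
    (hLR : ∀ u ∈ Lf, ∀ v ∈ Rt, rel true u.1.1 v.1.1 ∧ dl u.1.1 v.1.1 < u.2.1 ∧
      dl u.1.1 v.1.1 < v.2.1 ∧ dl u.1.1 v.1.1 < ν) :
    ∃ ξ, μ ≤ ξ ∧ ξ < ν ∧ ∀ γ, ξ < γ → ∃ l : LL, ht l = γ ∧ Agree μ z.1 l.1 ∧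
      (∀ u ∈ Lf, rel true u.1.1 l.1 ∧ dl u.1.1 l.1 < u.2.1 ∧ dl u.1.1 l.1 < ν) ∧
      ∀ v ∈ Rt, rel true l.1 v.1.1 ∧ dl l.1 v.1.1 < v.2.1 ∧ dl l.1 v.1.1 < ν := by
  classical
  -- one side empty
  have hone : ∀ (s : Bool) (T : Finset Tr), (∀ u ∈ T, Agree μ z.1 u.1.1) → (∀ u ∈ T, μ < u.2.1) →
      ∀ γ, μ < γ → ∃ l : LL, ht l = γ ∧ Agree μ z.1 l.1 ∧
        ∀ u ∈ T, rel s u.1.1 l.1 ∧ dl u.1.1 l.1 < u.2.1 ∧ dl u.1.1 l.1 < ν := by
    intro s T hT1 hT2 γ hγ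
    obtain ⟨q, hq⟩ := rr_bound s ((fun u : Tr => u.1.1 μ) '' (T : Set Tr))
      (T.finite_toSet.image _)
    obtain ⟨l, h1, h2, h3⟩ := exists_leaf z hμz hγ q
    refine ⟨l, h1, h2, fun u hu => ?_⟩
    have h4 : rr s (u.1.1 μ) (l.1 μ) := by
      rw [h3]
      exact hq _ ⟨u, hu, rfl⟩
    have h5 : Agree μ u.1.1 l.1 := (hT1 u hu).symm.trans h2
    have h6 : dl u.1.1 l.1 = μ := dl_eq_of h5 (rr_ne h4)
    rw [h6]
    exact ⟨rel_of h5 h4, hT2 u hu, hμν⟩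
  rcases Lf.eq_empty_or_nonempty with hL | hL
  · refine ⟨μ, le_rfl, hμν, fun γ hγ => ?_⟩
    obtain ⟨l, h1, h2, h3⟩ := hone false Rt hRz hRc γ hγ
    refine ⟨l, h1, h2, by simp [hL], fun v hv => ?_⟩
    rw [dl_comm]
    exact h3 v hv
  rcases Rt.eq_empty_or_nonempty with hR | hR
  · refine ⟨μ, le_rfl, hμν, fun γ hγ => ?_⟩
    obtain ⟨l, h1, h2, h3⟩ := hone true Lf hLz hLc γ hγ
    exact ⟨l, h1, h2, h3, by simp [hR]⟩
  obtain ⟨a, ha, hamax⟩ := rel_max true (Lf.image fun u => u.1) (hL.image _)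
  obtain ⟨b, hb, hbmax⟩ := rel_max false (Rt.image fun u => u.1) (hR.image _)
  obtain ⟨ua, hua, rfl⟩ := Finset.mem_image.1 ha
  obtain ⟨ub, hub, rfl⟩ := Finset.mem_image.1 hb
  have ha' : ∀ u ∈ Lf, u.1.1 = ua.1.1 ∨ rel true u.1.1 ua.1.1 := fun u hu =>
    (hamax _ (Finset.mem_image.2 ⟨u, hu, rfl⟩)).imp (fun h => by rw [h]) id
  have hb' : ∀ u ∈ Rt, u.1.1 = ub.1.1 ∨ rel false u.1.1 ub.1.1 := fun u hu =>
    (hbmax _ (Finset.mem_image.2 ⟨u, hu, rfl⟩)).imp (fun h => by rw [h]) id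
  obtain ⟨hab, hab1, hab2, hab3⟩ := hLR ua hua ub hub
  obtain ⟨ξ, hξ⟩ : ∃ ξ, ξ = dl ua.1.1 ub.1.1 := ⟨_, rfl⟩
  have hagr : Agree ξ ua.1.1 ub.1.1 := by
    rw [agree_iff (rel_ne hab), hξ]
  have hμξ : μ ≤ ξ := by
    rw [hξ, ← agree_iff (rel_ne hab)]
    exact (hLz ua hua).symm.trans (hRz ub hub)
  have hval : rr true (ua.1.1 ξ) (ub.1.1 ξ) := by
    rw [hξ]
    exact (rel_iff_dl (rel_ne hab)).1 hab
  obtain ⟨q, hq1, hq2⟩ := rr_between true hval
  refine ⟨ξ, hμξ, by rw [hξ]; exact hab3, fun γ hγ => ?_⟩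
  have hneL : ua.1 ≠ ub.1 := fun h => rel_ne hab (by rw [h])
  have hξa : ξ ≤ ht ua.1 := by rw [hξ]; exact dl_le hneL
  obtain ⟨l, h1, h2, h3⟩ := exists_leaf ua.1 hξa hγ q
  rw [← h3] at hq1 hq2
  refine ⟨l, h1, (hLz ua hua).trans (h2.mono hμξ), fun u hu => ?_, fun v hv => ?_⟩
  · obtain ⟨h4, h5⟩ := dl_new (ha' u hu) hab hξ.symm h2 hq1 hq2
    obtain ⟨-, h6, -, h7⟩ := hLR u hu ub hub
    rw [h5]
    exact ⟨h4, h6, h7⟩
  · obtain ⟨h4, h5⟩ := dl_new (s := false) (x := v.1.1) (y := ub.1.1) (z := ua.1.1) (w := l.1)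
      (ξ := ξ) (hb' v hv) hab (by rw [dl_comm]; exact hξ.symm) (hagr.symm.trans h2) hq2 hq1
    obtain ⟨-, -, h6, h7⟩ := hLR ua hua v hv
    rw [dl_comm l.1, h5, dl_comm]
    exact ⟨h4, h6, h7⟩

/-- every element of `K` is the image of something in some extension -/
theorem ext_k (hF : ∀ ξ, ξ < F ξ) {p : Finset Tr} (hp : IsCond F K p) (k : LL) (hk : k ∈ K) :
    ∃ q, IsCond F K q ∧ p ⊆ q ∧ ∃ u ∈ q, u.2.2 = k := by
  classical
  by_cases hcov : ∃ u ∈ p, u.2.2 = k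
  · exact ⟨p, hp, subset_rfl, hcov⟩
  push Not at hcov
  suffices h : ∃ u, Gd F K u ∧ u.2.2 = k ∧ ∀ v ∈ p, Pq F u v by
    obtain ⟨u, h1, h2, h3⟩ := h
    exact ⟨insert u p, hp.insert h1 h3, Finset.subset_insert _ _, u, Finset.mem_insert_self _ _, h2⟩
  rcases p.eq_empty_or_nonempty with rfl | hpne
  · exact ⟨(k, sc (ht k), k), ⟨hk, le_rfl, rfl, rho_sc hF _, sc_notMem hF _⟩, rfl, by simp⟩
  have hne : ∀ u ∈ p, u.2.2.1 ≠ k.1 := fun u hu h => hcov u hu (Subtype.ext h)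
  obtain ⟨u0, hu0, hmax⟩ := p.exists_max_image (fun u => dl u.2.2.1 k.1) hpne
  have hmax' : ∀ u ∈ p, dl u.2.2.1 k.1 ≤ dl u0.2.2.1 k.1 := hmax
  obtain ⟨γ, hγ⟩ : ∃ γ, γ = dl u0.2.2.1 k.1 := ⟨_, rfl⟩
  obtain ⟨μ, hμ⟩ : ∃ μ, μ = rho F γ := ⟨_, rfl⟩
  have hμC : μ ∈ Cl F := by rw [hμ]; exact rho_mem _
  have hμγ : μ ≤ γ := by rw [hμ]; exact rho_le _
  obtain ⟨ν, hν1, hν2, hν3⟩ := exists_next F μ
  have hγν : γ < ν := by
    by_contra h
    have := le_rho hν1 (not_lt.1 h)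
    rw [← hμ] at this
    exact absurd this (not_le.2 hν2)
  have hγk : γ ≤ ht k := by rw [hγ]; exact dl_le' (hcov u0 hu0)
  have hγk0 : γ ≤ ht u0.2.2 := by rw [hγ]; exact dl_le (hcov u0 hu0)
  have hag0 : Agree μ u0.2.2.1 k.1 := by
    rw [agree_iff (hne u0 hu0), ← hγ]
    exact hμγ
  have hμk0 : μ ≤ ht u0.2.2 := hμγ.trans hγk0
  have hμl0 : μ ≤ ht u0.1 := ((hp.gd u0 hu0).le_iff' hμC).2 hμk0
  -- the block
  obtain ⟨B, hB⟩ : ∃ B : Finset Tr, B = p.filter fun u => Agree μ k.1 u.2.2.1 := ⟨_, rfl⟩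
  have hBp : ∀ u ∈ B, u ∈ p ∧ Agree μ k.1 u.2.2.1 := by
    intro u hu
    rw [hB] at hu
    exact Finset.mem_filter.1 hu
  have hBμ : ∀ u ∈ B, μ ≤ ht u.2.2 := fun u hu => by
    exact ht_le_of_agree (hag0.trans (hBp u hu).2) hμk0
  have hBl : ∀ u ∈ B, Agree μ u0.1.1 u.1.1 := fun u hu =>
    ((hp.pq u0 hu0 u (hBp u hu).1).agr μ hμC hμk0 (hBμ u hu)).2 (hag0.trans (hBp u hu).2)
  have hBc : ∀ u ∈ B, μ < u.2.1 := fun u hu => by
    have h1 : μ ≤ u.2.1 := ((hp.gd u (hBp u hu).1).le_iff hμC).2 (hBμ u hu)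
    refine lt_of_le_of_ne h1 fun h => (hp.gd u (hBp u hu).1).nm ?_
    rw [← h]
    exact hμC
  obtain ⟨ξ, hξ1, hξ2, hξ3⟩ := exists_between (z := u0.1) (μ := μ) (ν := ν)
    (Lf := B.filter fun u => rel true u.2.2.1 k.1) (Rt := B.filter fun u => rel true k.1 u.2.2.1)
    hμl0 hν2
    (fun u hu => hBl u (Finset.mem_filter.1 hu).1) (fun u hu => hBl u (Finset.mem_filter.1 hu).1)
    (fun u hu => hBc u (Finset.mem_filter.1 hu).1) (fun u hu => hBc u (Finset.mem_filter.1 hu).1)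
    (by
      intro u hu v hv
      obtain ⟨hu, hu'⟩ := Finset.mem_filter.1 hu
      obtain ⟨hv, hv'⟩ := Finset.mem_filter.1 hv
      have hup := (hBp u hu).1
      have hvp := (hBp v hv).1
      obtain ⟨h1, h2, h3⟩ := (hp.pq u hup v hvp).ord true (rel_trans hu' hv')
      refine ⟨h1, h2, h3, ?_⟩
      by_contra hcon
      rw [not_lt] at hcon
      have h4 : ν ≤ ht u.2.2 := ((hp.gd u hup).le_iff hν1).1 (hcon.trans h2.le)
      have h5 : ν ≤ ht v.2.2 := ((hp.gd v hvp).le_iff hν1).1 (hcon.trans h3.le)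
      have h6 := ((hp.pq u hup v hvp).agr ν hν1 h4 h5).1 ((agree_iff (rel_ne h1)).2 hcon)
      have h7 : Agree ν u.2.2.1 k.1 := rel_between hu' hv' h6
      have h8 := (agree_iff (hne u hup)).1 h7
      exact absurd (h8.trans ((hmax' u hup).trans hγ.ge)) (not_le.2 hγν))
  obtain ⟨l, hl1, hl2, hl3, hl4⟩ := hξ3 (max (ht k) (sc ξ)) ((lt_sc ξ).trans_le (le_max_right _ _))
  have hμk : μ ≤ ht k := hμγ.trans hγk
  have hrl : rho F (ht l) = rho F (ht k) := by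
    rw [hl1]
    refine le_antisymm (rho_min fun δ hδ hle => ?_) (rho_mono (le_max_left _ _))
    rcases le_max_iff.1 hle with h | h
    · exact le_rho hδ h
    · refine le_rho hδ (le_trans ?_ hμk)
      by_contra h1
      have h2 := hν3 δ hδ (not_le.1 h1)
      exact absurd (h2.trans h) (not_le.2 (sc_lt_of_mem hF hν1 hξ2))
  refine ⟨(l, sc (ht l), k), ⟨hk, le_rfl, hrl, ?_, sc_notMem hF _⟩, rfl, ?_⟩
  · show rho F (sc (ht l)) = rho F (ht k)
    rw [rho_sc hF, hrl]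
  intro v hv
  by_cases hvB : v ∈ B
  · -- in the block
    have hkey : ∀ s, rel s k.1 v.2.2.1 → rel s l.1 v.1.1 ∧ dl l.1 v.1.1 < v.2.1 ∧
        dl l.1 v.1.1 < ν := by
      intro s hs
      cases s
      · have h1 := hl3 v (Finset.mem_filter.2 ⟨hvB, hs⟩)
        rw [dl_comm]
        exact h1
      · exact hl4 v (Finset.mem_filter.2 ⟨hvB, hs⟩)
    obtain ⟨s, hs⟩ : ∃ s : Bool, rel s k.1 v.2.2.1 := by
      rcases rel_total true (hne v hv).symm with h | h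
      · exact ⟨true, h⟩
      · exact ⟨false, h⟩
    refine ⟨fun s' hs' => ?_, fun δ hδ h1 h2 => ?_⟩
    · obtain ⟨h1, h2, h3⟩ := hkey s' hs'
      have h4 : l ≠ v.1 := fun h => rel_ne h1 (by rw [h])
      exact ⟨h1, (dl_le h4).trans_lt (lt_sc _), h2⟩
    · show Agree δ l.1 v.1.1 ↔ Agree δ k.1 v.2.2.1
      have h1' : δ ≤ ht k := h1
      by_cases h3 : δ ≤ μ
      · exact ⟨fun _ => (hBp v hvB).2.mono h3,
          fun _ => (hl2.symm.trans (hBl v hvB)).mono h3⟩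
      · have h4 := hν3 δ hδ (not_le.1 h3)
        obtain ⟨h5, h6, h7⟩ := hkey s hs
        constructor
        · intro h8
          exact absurd (h4.trans ((agree_iff (rel_ne h5)).1 h8)) (not_le.2 h7)
        · intro h8
          have h9 := (agree_iff (rel_ne hs)).1 h8
          rw [dl_comm] at h9
          exact absurd (h4.trans (h9.trans ((hmax' v hv).trans hγ.ge))) (not_le.2 hγν)
  · -- outside the block
    have hvB' : ¬ Agree μ k.1 v.2.2.1 := fun h => hvB (by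
      rw [hB]
      exact Finset.mem_filter.2 ⟨hv, h⟩)
    have hdk : dl k.1 v.2.2.1 < μ := by
      rw [agree_iff (hne v hv).symm, not_le] at hvB'
      exact hvB'
    have hd0 : dl u0.2.2.1 v.2.2.1 = dl k.1 v.2.2.1 := by
      rw [dl_comm, dl_comm k.1]
      exact dl_of_agree (hne v hv) (by rw [dl_comm]; exact hdk) hag0.symm
    have hne0 : u0.2.2.1 ≠ v.2.2.1 := by
      intro h
      apply hvB'
      rw [← h]
      exact hag0.symm
    -- the corresponding leaves differ below `μ`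
    have hlμ : μ ≤ v.2.1 → ¬ Agree μ u0.1.1 v.1.1 := by
      intro h1 h2
      have h3 := ((hp.pq u0 hu0 v hv).agr μ hμC hμk0 (((hp.gd v hv).le_iff hμC).1 h1)).1 h2
      rw [agree_iff hne0, hd0] at h3
      exact absurd hdk (not_lt.2 h3)
    refine ⟨fun s hs => ?_, fun δ hδ h1 h2 => ?_⟩
    · show rel s l.1 v.1.1 ∧ dl l.1 v.1.1 < sc (ht l) ∧ dl l.1 v.1.1 < v.2.1
      have hs' : rel s k.1 v.2.2.1 := hs
      have h3 : rel s u0.2.2.1 v.2.2.1 := rel_of_agree' hs' hdk hag0.symm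
      obtain ⟨h4, h5, h6⟩ := (hp.pq u0 hu0 v hv).ord s h3
      have h7 : dl u0.1.1 v.1.1 < μ := by
        by_contra hcon
        rw [not_lt] at hcon
        exact hlμ (hcon.trans h6.le) ((agree_iff (rel_ne h4)).2 hcon)
      have h8 : dl l.1 v.1.1 = dl u0.1.1 v.1.1 := by
        rw [dl_comm, dl_comm u0.1.1]
        exact dl_of_agree (rel_ne h4).symm (by rw [dl_comm]; exact h7) hl2
      have h9 : rel s l.1 v.1.1 := rel_of_agree' h4 h7 hl2
      have h10 : l ≠ v.1 := fun h => rel_ne h9 (by rw [h])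
      exact ⟨h9, (dl_le h10).trans_lt (lt_sc _), by rw [h8]; exact h6⟩
    · show Agree δ l.1 v.1.1 ↔ Agree δ k.1 v.2.2.1
      by_cases h3 : δ ≤ μ
      · have h4 := (hp.pq u0 hu0 v hv).agr δ hδ (h3.trans hμk0) h2
        have h5 : Agree δ u0.1.1 l.1 := hl2.mono h3
        have h6 : Agree δ u0.2.2.1 k.1 := hag0.mono h3
        exact ⟨fun h => h6.symm.trans (h4.1 (h5.trans h)),
          fun h => h5.symm.trans (h4.2 (h6.trans h))⟩
      · have h3' := (not_le.1 h3).le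
        constructor
        · intro h
          exfalso
          have h4 : μ ≤ v.2.1 := ((hp.gd v hv).le_iff hμC).2 (h3'.trans h2)
          exact hlμ h4 (hl2.trans (h.mono h3'))
        · intro h
          exact absurd (h.mono h3') hvB'

end Pool.Agent.TH778.SA
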