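import Pool.Agent.TH778.SA.Club

/-!
# The order and its reverse treated together, and the closure property of a set of leaves
-/

set_option autoImplicit false

namespace Pool.Agent.TH778.SA

open Set Cardinal Pool.Agent.Helper330.DPK.Coh

/-- `x < y` if `s` is true, `y < x` otherwise -/
def rel (s : Bool) (x y : Sq) : Prop := cond s (x < y) (y < x)

theorem rel_true {x y : Sq} : rel true x y ↔ x < y := Iff.rfl

theorem rel_false {x y : Sq} : rel false x y ↔ y < x := Iff.rfl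

theorem rel_not {s : Bool} {x y : Sq} : rel (!s) x y ↔ rel s y x := by
  cases s <;> exact Iff.rfl

theorem rel_irrefl {s : Bool} (x : Sq) : ¬ rel s x x := by
  cases s <;> exact lt_irrefl x

theorem rel_ne {s : Bool} {x y : Sq} (h : rel s x y) : x ≠ y := by
  rintro rfl
  exact rel_irrefl x h

theorem rel_trans {s : Bool} {x y z : Sq} (h1 : rel s x y) (h2 : rel s y z) : rel s x z := by
  cases s
  · exact lt_trans (α := Sq) h2 h1
  · exact lt_trans (α := Sq) h1 h2

theorem rel_asymm {s : Bool} {x y : Sq} (h1 : rel s x y) (h2 : rel s y x) : False :=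
  rel_irrefl x (rel_trans h1 h2)

theorem rel_total (s : Bool) {x y : Sq} (h : x ≠ y) : rel s x y ∨ rel s y x := by
  cases s
  · exact (lt_or_gt_of_ne h).symm
  · exact lt_or_gt_of_ne h

theorem rel_of_agree {s : Bool} {x y z : Sq} {δ : W} (h : rel s x y) (hd : dl x y < δ)
    (ha : Agree δ y z) : rel s x z := by
  cases s
  · exact lt_of_agree' h (by rw [dl_comm]; exact hd) ha
  · exact lt_of_agree h hd ha

theorem rel_of_agree' {s : Bool} {x y z : Sq} {δ : W} (h : rel s x y) (hd : dl x y < δ)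
    (ha : Agree δ x z) : rel s z y := by
  rw [← rel_not] at h ⊢
  exact rel_of_agree h (by rw [dl_comm]; exact hd) ha

theorem rel_between {s : Bool} {x y z : Sq} {δ : W} (h1 : rel s x y) (h2 : rel s y z)
    (h : Agree δ x z) : Agree δ x y := by
  cases s
  · have h3 : Agree δ z y := agree_of_between (x := z) (y := y) (z := x) h2.le h1.le h.symm
    exact h.trans h3
  · exact agree_of_between h1.le h2.le h

/-- the order of the values at the first difference -/
def rr (s : Bool) (a b : ℝ) : Prop := cond s (a < b) (b < a)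

theorem rr_ne {s : Bool} {a b : ℝ} (h : rr s a b) : a ≠ b := by
  cases s
  · exact ne_of_gt h
  · exact ne_of_lt h

theorem rr_trans {s : Bool} {a b c : ℝ} (h1 : rr s a b) (h2 : rr s b c) : rr s a c := by
  cases s
  · exact lt_trans (α := ℝ) h2 h1
  · exact lt_trans (α := ℝ) h1 h2

theorem rr_total (s : Bool) {a b : ℝ} (h : a ≠ b) : rr s a b ∨ rr s b a := by
  cases s
  · exact (lt_or_gt_of_ne h).symm
  · exact lt_or_gt_of_ne h

theorem rr_asymm {s : Bool} {a b : ℝ} (h1 : rr s a b) (h2 : rr s b a) : False := by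
  cases s
  · exact lt_asymm (α := ℝ) h1 h2
  · exact lt_asymm (α := ℝ) h1 h2

theorem rr_between (s : Bool) {a b : ℝ} (h : rr s a b) : ∃ q : ℚ, rr s a q ∧ rr s q b := by
  cases s
  · obtain ⟨q, h1, h2⟩ := exists_rat_btwn (show b < a from h)
    exact ⟨q, h2, h1⟩
  · obtain ⟨q, h1, h2⟩ := exists_rat_btwn (show a < b from h)
    exact ⟨q, h1, h2⟩

/-- an upper bound of a finite set of reals, in the sense of `rr s` -/
theorem rr_bound (s : Bool) (T : Set ℝ) (hT : T.Finite) : ∃ q : ℚ, ∀ a ∈ T, rr s a q := by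
  cases s
  · obtain ⟨b, hb⟩ := hT.bddBelow
    obtain ⟨q, hq⟩ := exists_rat_lt b
    exact ⟨q, fun a ha => hq.trans_le (hb ha)⟩
  · obtain ⟨b, hb⟩ := hT.bddAbove
    obtain ⟨q, hq⟩ := exists_rat_gt b
    exact ⟨q, fun a ha => (hb ha).trans_lt hq⟩

theorem rel_iff_dl {s : Bool} {x y : Sq} (h : x ≠ y) :
    rel s x y ↔ rr s (x (dl x y)) (y (dl x y)) := by
  cases s
  · rw [dl_comm]
    exact lt_iff_dl h.symm
  · exact lt_iff_dl h

theorem rel_of {s : Bool} {x y : Sq} {ξ : W} (h1 : Agree ξ x y) (h2 : rr s (x ξ) (y ξ)) :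
    rel s x y := by
  have h3 := dl_eq_of h1 (rr_ne h2)
  have h4 : x ≠ y := by
    rintro rfl
    exact rr_ne h2 rfl
  rw [rel_iff_dl h4, h3]
  exact h2

/-- a maximal element of a finite set -/
theorem rel_max (s : Bool) (T : Finset LL) (hT : T.Nonempty) :
    ∃ m ∈ T, ∀ x ∈ T, x = m ∨ rel s x.1 m.1 := by
  cases s
  · refine ⟨T.min' hT, T.min'_mem hT, fun x hx => ?_⟩
    rcases (T.min'_le x hx).eq_or_lt with h | h
    · exact Or.inl h.symm
    · exact Or.inr h
  · refine ⟨T.max' hT, T.max'_mem hT, fun x hx => ?_⟩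
    rcases (T.le_max' x hx).eq_or_lt with h | h
    · exact Or.inl h
    · exact Or.inr h

/-- the closure property of `K` -/
def Near (F : W → W) (K : Set LL) : Prop :=
  ∀ s : Bool, ∀ k ∈ K, ∀ δ ∈ Cl F, δ ≤ ht k → ∀ ζ < δ,
    ∃ k' ∈ K, Agree ζ k.1 k'.1 ∧ rel s k.1 k'.1 ∧ ht k' < δ

theorem exists_level (s : Bool) (K : Set LL) (l : LL) :
    ∃ β : W, ¬ ∃ k ∈ K, Agree (ht l) l.1 k.1 ∧ β ≤ ht k ∧
      ∀ k' ∈ K, Agree (ht l) l.1 k'.1 → rel s k.1 k'.1 → Agree β k.1 k'.1 := by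
  by_contra hcon
  push Not at hcon
  choose z hz1 hz2 hz3 hz4 using hcon
  refine no_branch z hz3 fun β γ hβγ => ?_
  by_cases h : (z β).1 = (z γ).1
  · rw [h]
    exact Agree.refl _ _
  rcases rel_total s h with h1 | h1
  · exact hz4 β _ (hz1 γ) (hz2 γ) h1
  · exact ((hz4 γ _ (hz1 β) (hz2 β) h1).symm).mono hβγ

theorem exists_near (K : Set LL) : ∃ F : W → W, (∀ ξ, ξ < F ξ) ∧ Near F K := by
  classical
  choose β hβ using fun (s : Bool) (l : LL) => exists_level s K l
  let g : LL → W := fun l => if h : ∃ k ∈ K, Agree (ht l) l.1 k.1 then ht h.choose else ht l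
  have hg : ∀ l : LL, (∃ k ∈ K, Agree (ht l) l.1 k.1) →
      ∃ k ∈ K, Agree (ht l) l.1 k.1 ∧ ht k ≤ g l := by
    intro l h
    refine ⟨h.choose, h.choose_spec.1, h.choose_spec.2, ?_⟩
    have : g l = ht h.choose := dif_pos h
    rw [this]
  obtain ⟨F1, hF1⟩ := exists_fn g
  obtain ⟨F2, hF2⟩ := exists_fn (β true)
  obtain ⟨F3, hF3⟩ := exists_fn (β false)
  choose sx hsx using exists_gt (α := W)
  let F : W → W := fun ξ => max (max (F1 ξ) (sx ξ)) (max (F2 ξ) (F3 ξ))
  have hF0 : ∀ ξ, ξ < F ξ := fun ξ =>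
    (hsx ξ).trans_le ((le_max_right _ _).trans (le_max_left _ _))
  have hFg : ∀ l, g l < F (ht l) := fun l =>
    (hF1 l).trans_le ((le_max_left _ _).trans (le_max_left _ _))
  have hFβ : ∀ s l, β s l < F (ht l) := by
    intro s l
    cases s
    · exact (hF3 l).trans_le ((le_max_right _ _).trans (le_max_right _ _))
    · exact (hF2 l).trans_le ((le_max_left _ _).trans (le_max_right _ _))
  refine ⟨F, hF0, ?_⟩
  intro s k hk δ hδ hδk ζ hζ
  obtain ⟨l, hl1, hl2⟩ := exists_attach k (hζ.le.trans hδk)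
  have h1 := hβ s l
  have h2 : β s l < δ := (hFβ s l).trans (by rw [hl1]; exact hδ ζ hζ)
  have h3 : ∃ k' ∈ K, Agree (ht l) l.1 k'.1 ∧ rel s k.1 k'.1 ∧ ¬ Agree (β s l) k.1 k'.1 := by
    by_contra hcon
    push Not at hcon
    exact h1 ⟨k, hk, by rw [hl1]; exact hl2.symm, h2.le.trans hδk, hcon⟩
  obtain ⟨k', hk', h4, h5, h6⟩ := h3
  have hne := rel_ne h5
  rw [agree_iff hne, not_le] at h6
  have hag : Agree ζ k.1 k'.1 := hl2.trans (by rw [← hl1]; exact h4)
  have hneL : k ≠ k' := fun h => hne (by rw [h])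
  rcases (dl_le' hneL).eq_or_lt with h7 | h7
  · exact ⟨k', hk', hag, h5, by rw [← h7]; exact h6.trans h2⟩
  · have h8 : sc (dl k.1 k'.1) ≤ ht k' := sc_le h7
    obtain ⟨l', hl3, hl4⟩ := exists_attach k' h8
    obtain ⟨k'', hk'', h9, h10⟩ := hg l' ⟨k', hk', by rw [hl3]; exact hl4.symm⟩
    have h11 : Agree (sc (dl k.1 k'.1)) k'.1 k''.1 := hl4.trans (by rw [← hl3]; exact h9)
    refine ⟨k'', hk'', hag.trans (h11.mono ?_), rel_of_agree h5 (lt_sc _) h11, ?_⟩
    · exact ((agree_iff hne).1 hag).trans (lt_sc _).le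
    · refine (h10.trans_lt (hFg l')).trans ?_
      rw [hl3]
      exact hδ _ (sc_lt_of_mem hF0 hδ (h6.trans h2))

end Pool.Agent.TH778.SA
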