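import Mathlib
import Pool.Agent.Helper330.DPK.Coh

/-!
# The leaves of a coherent Aronszajn tree, in the lexicographic order

`cg` is a coherent sequence of finite-to-one functions from the countable ordinals to `ℕ`. A leaf
of height `α` is a sequence `x` of reals indexed by `ω₁` such that `x ξ` is rational for `ξ < α`,
and different from `cg α ξ` for finitely many such `ξ` only, `x α` is of the form `q + √2` with
`q` rational, and `x ξ = 0` for `ξ > α`.
-/

set_option autoImplicit false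

namespace Pool.Agent.TH778.SA

open Set Cardinal Pool.Agent.Helper330.DPK.Coh

/-- sequences of length `ω₁` with the lexicographic order -/
abbrev Sq : Type := Lex (W → ℝ)

theorem lt_iff {x y : Sq} : x < y ↔ ∃ ξ, (∀ η < ξ, x η = y η) ∧ x ξ < y ξ := Iff.rfl

/-- `x` and `y` agree below `δ` -/
def Agree (δ : W) (x y : Sq) : Prop := ∀ ξ < δ, x ξ = y ξ

theorem Agree.refl (δ : W) (x : Sq) : Agree δ x x := fun _ _ => rfl

theorem Agree.symm {δ : W} {x y : Sq} (h : Agree δ x y) : Agree δ y x := fun ξ hξ => (h ξ hξ).symm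

theorem Agree.trans {δ : W} {x y z : Sq} (h : Agree δ x y) (h' : Agree δ y z) : Agree δ x z :=
  fun ξ hξ => (h ξ hξ).trans (h' ξ hξ)

theorem Agree.mono {δ ε : W} {x y : Sq} (h : Agree δ x y) (hle : ε ≤ δ) : Agree ε x y :=
  fun ξ hξ => h ξ (hξ.trans_le hle)

open Classical in
/-- the first place where `x` and `y` differ -/
noncomputable def dl (x y : Sq) : W :=
  if h : {ξ | x ξ ≠ y ξ}.Nonempty then (wellFounded_lt (α := W)).min _ h else Classical.arbitrary W

theorem ne_iff {x y : Sq} : x ≠ y ↔ {ξ | x ξ ≠ y ξ}.Nonempty := by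
  constructor
  · intro h
    by_contra hc
    rw [Set.not_nonempty_iff_eq_empty] at hc
    apply h
    funext ξ
    by_contra hξ
    have : ξ ∈ {ξ | x ξ ≠ y ξ} := hξ
    rw [hc] at this
    exact this
  · rintro ⟨ξ, hξ⟩ rfl
    exact hξ rfl

theorem dl_ne {x y : Sq} (h : x ≠ y) : x (dl x y) ≠ y (dl x y) := by
  have h' := ne_iff.1 h
  rw [dl, dif_pos h']
  exact (wellFounded_lt (α := W)).min_mem _ h'

theorem agree_dl {x y : Sq} (h : x ≠ y) : Agree (dl x y) x y := by
  intro ξ hξ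
  by_contra hne
  have h' := ne_iff.1 h
  rw [dl, dif_pos h'] at hξ
  exact (wellFounded_lt (α := W)).not_lt_min {ξ | x ξ ≠ y ξ} (x := ξ) hne hξ

theorem agree_iff {x y : Sq} (h : x ≠ y) {δ : W} : Agree δ x y ↔ δ ≤ dl x y := by
  constructor
  · intro h1
    by_contra h2
    exact dl_ne h (h1 _ (not_le.1 h2))
  · exact fun h1 => (agree_dl h).mono h1

theorem dl_eq_of {x y : Sq} {ξ : W} (h1 : Agree ξ x y) (h2 : x ξ ≠ y ξ) : dl x y = ξ := by
  have hne : x ≠ y := by
    rintro rfl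
    exact h2 rfl
  apply le_antisymm
  · by_contra h3
    exact h2 (agree_dl hne ξ (not_le.1 h3))
  · exact (agree_iff hne).1 h1

theorem dl_comm (x y : Sq) : dl x y = dl y x := by
  by_cases h : x = y
  · rw [h]
  · exact dl_eq_of (agree_dl (Ne.symm h)).symm (dl_ne (Ne.symm h)).symm

theorem lt_iff_dl {x y : Sq} (h : x ≠ y) : x < y ↔ x (dl x y) < y (dl x y) := by
  constructor
  · intro hlt
    obtain ⟨ξ, h1, h2⟩ := lt_iff.1 hlt
    rw [dl_eq_of h1 h2.ne]
    exact h2
  · intro h1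
    exact lt_iff.2 ⟨_, agree_dl h, h1⟩

/-- if `x < y < z` and `x`, `z` agree below `δ` then so do `x`, `y` -/
theorem agree_of_between {x y z : Sq} {δ : W} (h1 : x ≤ y) (h2 : y ≤ z) (h : Agree δ x z) :
    Agree δ x y := by
  rcases h1.eq_or_lt with rfl | h1
  · exact Agree.refl _ _
  rcases h2.eq_or_lt with rfl | h2
  · exact h
  rw [agree_iff h1.ne]
  by_contra hcon
  rw [not_le] at hcon
  have h3 := (lt_iff_dl h1.ne).1 h1
  have h4 : y (dl x y) ≤ z (dl x y) := by
    by_contra h5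
    rw [not_le] at h5
    have h6 : Agree (dl x y) z y := ((h.mono hcon.le).symm).trans (agree_dl h1.ne)
    exact lt_asymm h2 (lt_iff.2 ⟨_, h6, h5⟩)
  rw [← h _ hcon] at h4
  exact absurd h3 (not_lt.2 h4)

/-- replacing the larger side by a sequence which agrees with it beyond the first difference -/
theorem lt_of_agree {x y z : Sq} {δ : W} (h : x < y) (hd : dl x y < δ) (ha : Agree δ y z) :
    x < z := by
  refine lt_iff.2 ⟨dl x y, fun η hη => ?_, ?_⟩
  · rw [← ha η (hη.trans hd)]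
    exact agree_dl h.ne η hη
  · rw [← ha _ hd]
    exact (lt_iff_dl h.ne).1 h

theorem lt_of_agree' {x y z : Sq} {δ : W} (h : y < x) (hd : dl y x < δ) (ha : Agree δ y z) :
    z < x := by
  refine lt_iff.2 ⟨dl y x, fun η hη => ?_, ?_⟩
  · rw [← ha η (hη.trans hd)]
    exact agree_dl h.ne η hη
  · rw [← ha _ hd]
    exact (lt_iff_dl h.ne).1 h

theorem dl_of_agree {x y z : Sq} {δ : W} (h : x ≠ y) (hd : dl x y < δ) (ha : Agree δ y z) :
    dl x z = dl x y := by
  apply dl_eq_of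
  · exact (agree_dl h).trans (ha.mono hd.le)
  · rw [← ha _ hd]
    exact dl_ne h

/-! ### leaves -/

/-- `x` is a leaf of height `α` -/
structure Leaf (x : Sq) (α : W) : Prop where
  top : ∃ q : ℚ, x α = q + √2
  low : ∀ ξ < α, ∃ q : ℚ, x ξ = q
  zero : ∀ ξ, α < ξ → x ξ = 0
  fin : {ξ | ξ < α ∧ x ξ ≠ (cg α ξ : ℝ)}.Finite

theorem label {r : ℝ} (h1 : ∃ q : ℚ, r = q + √2) (h2 : ∃ q : ℚ, r = q) : False := by
  obtain ⟨q, hq⟩ := h1
  obtain ⟨q', hq'⟩ := h2
  apply irrational_sqrt_two.ne_rat (q' - q)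
  push_cast
  linarith

theorem Leaf.le {x y : Sq} {α β δ : W} (hx : Leaf x α) (hy : Leaf y β) (h : Agree δ x y)
    (hδ : δ ≤ α) : δ ≤ β := by
  by_contra hcon
  rw [not_le] at hcon
  exact label hy.top (by rw [← h β hcon]; exact hx.low β (hcon.trans_le hδ))

theorem Leaf.unique {x : Sq} {α β : W} (hx : Leaf x α) (hy : Leaf x β) : α = β :=
  le_antisymm (hx.le hy (Agree.refl _ _) le_rfl) (hy.le hx (Agree.refl _ _) le_rfl)

/-- the set of the leaves -/
def LSet : Set Sq := {x | ∃ α, Leaf x α}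

/-- the line of the leaves -/
abbrev LL : Type := LSet

/-- the height of a leaf -/
noncomputable def ht (x : LL) : W := x.2.choose

theorem leaf (x : LL) : Leaf x.1 (ht x) := x.2.choose_spec

theorem ht_eq {x : LL} {α : W} (h : Leaf x.1 α) : ht x = α := (leaf x).unique h

theorem ht_le_of_agree {x y : LL} {δ : W} (h : Agree δ x.1 y.1) (hδ : δ ≤ ht x) : δ ≤ ht y :=
  (leaf x).le (leaf y) h hδ

theorem dl_le {x y : LL} (h : x ≠ y) : dl x.1 y.1 ≤ ht x := by
  have hne : x.1 ≠ y.1 := fun h' => h (Subtype.ext h')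
  by_contra hcon
  rw [not_le] at hcon
  have h1 := agree_dl hne
  have h2 : ht x ≤ ht y := ht_le_of_agree (h1.mono hcon.le) le_rfl
  have h3 : ht x = ht y := by
    rcases h2.eq_or_lt with h3 | h3
    · exact h3
    · exact (label (leaf x).top (by rw [h1 _ hcon]; exact (leaf y).low _ h3)).elim
  apply dl_ne hne
  rw [(leaf x).zero _ hcon, (leaf y).zero _ (h3 ▸ hcon)]

theorem dl_le' {x y : LL} (h : x ≠ y) : dl x.1 y.1 ≤ ht y := by
  rw [dl_comm]
  exact dl_le (Ne.symm h)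

/-- finiteness of the difference to the coherent sequence at a lower level -/
theorem fin_of_le {x : LL} {δ : W} (h : δ ≤ ht x) : {ξ | ξ < δ ∧ x.1 ξ ≠ (cg δ ξ : ℝ)}.Finite := by
  refine (((leaf x).fin).union (cg_coh δ (ht x))).subset ?_
  rintro ξ ⟨h1, h2⟩
  by_cases h3 : x.1 ξ = (cg (ht x) ξ : ℝ)
  · right
    refine ⟨h1, h1.trans_le h, fun h4 => h2 ?_⟩
    rw [h3, h4]
  · exact Or.inl ⟨h1.trans_le h, h3⟩

/-- a new leaf: it agrees with `x` below `β`, has the label `v` at `β`, and height `γ` -/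
theorem exists_leaf (x : LL) {β γ : W} (hβ : β ≤ ht x) (hγ : β < γ) (v : ℚ) :
    ∃ y : LL, ht y = γ ∧ Agree β x.1 y.1 ∧ y.1 β = v := by
  classical
  let y : Sq := toLex fun ξ => if ξ < β then x.1 ξ else if ξ = β then (v : ℝ) else
    if ξ < γ then (cg γ ξ : ℝ) else if ξ = γ then √2 else 0
  have hy : ∀ ξ, y ξ = if ξ < β then x.1 ξ else if ξ = β then (v : ℝ) else
    if ξ < γ then (cg γ ξ : ℝ) else if ξ = γ then √2 else 0 := fun ξ => rfl
  have hleaf : Leaf y γ := by
    refine ⟨⟨0, ?_⟩, fun ξ hξ => ?_, fun ξ hξ => ?_, ?_⟩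
    · rw [hy, if_neg (not_lt.2 hγ.le), if_neg hγ.ne', if_neg (lt_irrefl _), if_pos rfl]
      simp
    · rw [hy]
      by_cases h1 : ξ < β
      · rw [if_pos h1]
        exact (leaf x).low ξ (h1.trans_le hβ)
      · rw [if_neg h1]
        by_cases h2 : ξ = β
        · rw [if_pos h2]
          exact ⟨v, rfl⟩
        · rw [if_neg h2, if_pos hξ]
          exact ⟨(cg γ ξ : ℚ), by simp⟩
    · rw [hy, if_neg (not_lt.2 (hγ.trans hξ).le), if_neg (hγ.trans hξ).ne', if_neg hξ.le.not_gt,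
        if_neg hξ.ne']
    · refine (((fin_of_le hβ).union (cg_coh β γ)).union (Set.finite_singleton β)).subset ?_
      rintro ξ ⟨h1, h2⟩
      by_cases h3 : ξ = β
      · exact Or.inr h3
      · left
        have h4 : ξ < β := by
          by_contra h4
          apply h2
          rw [hy, if_neg h4, if_neg h3, if_pos h1]
        rw [hy, if_pos h4] at h2
        by_cases h5 : x.1 ξ = (cg β ξ : ℝ)
        · right
          refine ⟨h4, h1, fun h6 => h2 ?_⟩
          rw [h5, h6]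
        · exact Or.inl ⟨h4, h5⟩
  refine ⟨⟨y, γ, hleaf⟩, ht_eq hleaf, fun ξ hξ => ?_, ?_⟩
  · show x.1 ξ = y ξ
    rw [hy, if_pos hξ]
  · show y β = v
    rw [hy, if_neg (lt_irrefl _), if_pos rfl]

/-- the leaf attached at the node of `x` of level `β` -/
theorem exists_attach (x : LL) {β : W} (hβ : β ≤ ht x) : ∃ y : LL, ht y = β ∧ Agree β x.1 y.1 := by
  classical
  let y : Sq := toLex fun ξ => if ξ < β then x.1 ξ else if ξ = β then √2 else 0
  have hy : ∀ ξ, y ξ = if ξ < β then x.1 ξ else if ξ = β then √2 else 0 := fun ξ => rfl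
  have hleaf : Leaf y β := by
    refine ⟨⟨0, ?_⟩, fun ξ hξ => ?_, fun ξ hξ => ?_, ?_⟩
    · rw [hy, if_neg (lt_irrefl _), if_pos rfl]
      simp
    · rw [hy, if_pos hξ]
      exact (leaf x).low ξ (hξ.trans_le hβ)
    · rw [hy, if_neg hξ.le.not_gt, if_neg hξ.ne']
    · refine (fin_of_le hβ).subset ?_
      rintro ξ ⟨h1, h2⟩
      rw [hy, if_pos h1] at h2
      exact ⟨h1, h2⟩
  refine ⟨⟨y, β, hleaf⟩, ht_eq hleaf, fun ξ hξ => ?_⟩
  show x.1 ξ = y ξ
  rw [hy, if_pos hξ]

theorem not_countable_W : ¬ (univ : Set W).Countable := by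
  intro h
  rw [← Cardinal.le_aleph0_iff_set_countable, Cardinal.mk_univ, Cardinal.mk_ord_toType] at h
  exact absurd h (not_le.2 Cardinal.aleph0_lt_aleph_one)

/-- countable sets are bounded -/
theorem exists_ub {S : Set W} (hS : S.Countable) : ∃ b, ∀ s ∈ S, s < b := by
  by_contra hcon
  push Not at hcon
  apply not_countable_W
  refine (hS.biUnion fun s _ => countable_Iic s).mono fun b _ => ?_
  obtain ⟨s, hs, hbs⟩ := hcon b
  exact mem_iUnion₂.2 ⟨s, hs, hbs⟩

theorem exists_gt_of_not_countable {S : Set W} (hS : ¬ S.Countable) (c : W) : ∃ a ∈ S, c < a := by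
  by_contra hcon
  push Not at hcon
  exact hS ((countable_Iic c).mono fun a ha => hcon a ha)

theorem countable_leaf (α : W) : {x : Sq | Leaf x α}.Countable := by
  classical
  let F : (Iic α →₀ ℚ) → Sq := fun f => toLex fun ξ =>
    if h : ξ ≤ α then (f ⟨ξ, h⟩ : ℝ) + (if ξ = α then √2 else (cg α ξ : ℝ)) else 0
  have : Countable (Iic α) := (countable_Iic α).to_subtype
  refine (Set.countable_range F).mono ?_
  intro x hx
  obtain ⟨q0, hq0⟩ := hx.top
  have h1 : ∀ ξ : Iic α, ∃ q : ℚ, x ξ.1 = q + (if ξ.1 = α then √2 else (cg α ξ.1 : ℝ)) := by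
    rintro ⟨ξ, hξ⟩
    by_cases h2 : ξ = α
    · refine ⟨q0, ?_⟩
      rw [if_pos h2]
      show x ξ = _
      rw [h2, hq0]
    · obtain ⟨q, hq⟩ := hx.low ξ (lt_of_le_of_ne hξ h2)
      refine ⟨q - cg α ξ, ?_⟩
      rw [if_neg h2]
      show x ξ = _
      rw [hq]
      push_cast
      ring
  choose g hg using h1
  have hfin : (Function.support g).Finite := by
    have h2 : ((fun ξ : Iic α => ξ.1) '' Function.support g).Finite := by
      refine (hx.fin.insert α).subset ?_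
      rintro _ ⟨⟨ξ, hξ⟩, h3, rfl⟩
      by_cases h4 : ξ = α
      · exact Or.inl h4
      · refine Or.inr ⟨lt_of_le_of_ne hξ h4, fun h5 => h3 ?_⟩
        have h6 := hg ⟨ξ, hξ⟩
        rw [if_neg h4] at h6
        have h7 : ((g ⟨ξ, hξ⟩ : ℚ) : ℝ) = 0 := by
          have h8 : x ξ = (cg α ξ : ℝ) := h5
          have h9 : x ξ = (g ⟨ξ, hξ⟩ : ℝ) + (cg α ξ : ℝ) := h6
          linarith
        exact_mod_cast h7
    exact Set.Finite.of_finite_image h2 (Subtype.val_injective.injOn)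
  refine ⟨Finsupp.ofSupportFinite g hfin, ?_⟩
  funext ξ
  show (if h : ξ ≤ α then (g ⟨ξ, h⟩ : ℝ) + (if ξ = α then √2 else (cg α ξ : ℝ)) else 0) = x ξ
  by_cases h : ξ ≤ α
  · rw [dif_pos h]
    exact (hg ⟨ξ, h⟩).symm
  · rw [dif_neg h, hx.zero ξ (not_le.1 h)]

theorem countable_ht_eq (α : W) : {x : LL | ht x = α}.Countable := by
  refine Set.countable_of_injective_of_countable_image (f := Subtype.val)
    Subtype.val_injective.injOn ((countable_leaf α).mono ?_)
  rintro _ ⟨x, hx, rfl⟩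
  have hx' : ht x = α := hx
  rw [← hx']
  exact leaf x

theorem countable_ht_lt (δ : W) : {x : LL | ht x < δ}.Countable := by
  refine ((countable_Iio δ).biUnion fun α _ => countable_ht_eq α).mono fun x hx => ?_
  exact mem_iUnion₂.2 ⟨ht x, hx, rfl⟩

theorem exists_fn (g : LL → W) : ∃ F : W → W, ∀ x, g x < F (ht x) := by
  have h : ∀ α : W, ∃ b, ∀ x : LL, ht x = α → g x < b := by
    intro α
    obtain ⟨b, hb⟩ := exists_ub ((countable_ht_eq α).image g)
    exact ⟨b, fun x hx => hb _ ⟨x, hx, rfl⟩⟩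
  choose F hF using h
  exact ⟨F, fun x => hF _ x rfl⟩

/-- there is no uncountable branch -/
theorem no_branch (z : W → LL) (h1 : ∀ β, β ≤ ht (z β)) (h2 : ∀ β γ, β ≤ γ → Agree β (z β).1 (z γ).1) :
    False := by
  classical
  obtain ⟨sc, hsc⟩ : ∃ sc : W → W, ∀ x, x < sc x := ⟨fun x => (exists_gt x).choose, fun x =>
    (exists_gt x).choose_spec⟩
  let f : W → ℝ := fun ξ => (z (sc ξ)).1 ξ
  have hf : ∀ β, ∀ ξ < β, f ξ = (z β).1 ξ := by
    intro β ξ hξ
    rcases le_total (sc ξ) β with h | h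
    · exact h2 _ _ h ξ (hsc ξ)
    · exact (h2 _ _ h ξ hξ).symm
  have hrat : ∀ ξ, ∃ q : ℚ, f ξ = q := fun ξ => (leaf (z (sc ξ))).low ξ ((hsc ξ).trans_le (h1 _))
  choose q hq using hrat
  obtain ⟨v, hv⟩ : ∃ v, ¬ {ξ | q ξ = v}.Countable := by
    by_contra hcon
    push Not at hcon
    apply not_countable_W
    refine (Set.countable_iUnion hcon).mono fun ξ _ => ?_
    exact mem_iUnion.2 ⟨q ξ, rfl⟩
  -- a countable infinite subset and a bound of it
  have hinf : {ξ | q ξ = v}.Infinite := fun h => hv h.countable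
  obtain ⟨S, hS, hSc, hSi⟩ : ∃ S ⊆ {ξ | q ξ = v}, S.Countable ∧ S.Infinite := by
    let g := hinf.natEmbedding
    exact ⟨range fun n => (g n).1, by rintro _ ⟨n, rfl⟩; exact (g n).2, countable_range _,
      Set.infinite_range_of_injective fun a b hab => g.injective (Subtype.ext hab)⟩
  obtain ⟨b, hb⟩ := exists_ub hSc
  have hfin := fin_of_le (h1 b)
  have hsub : S ⊆ {ξ | ξ < b ∧ (z b).1 ξ ≠ (cg b ξ : ℝ)} ∪ {ξ | ξ < b ∧ cg b ξ ≤ ⌊v⌋.toNat} := by
    intro ξ hξ
    have h3 := hf b ξ (hb ξ hξ)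
    have h4 : f ξ = v := by rw [hq]; exact_mod_cast hS hξ
    by_cases h5 : (z b).1 ξ = (cg b ξ : ℝ)
    · right
      refine ⟨hb ξ hξ, ?_⟩
      have h6 : ((cg b ξ : ℕ) : ℝ) = (v : ℝ) := by rw [← h5, ← h3, h4]
      have h7 : ((cg b ξ : ℕ) : ℚ) = v := by exact_mod_cast h6
      rw [← h7]
      simp
    · exact Or.inl ⟨hb ξ hξ, h5⟩
  exact hSi ((hfin.union (cg_fin b _)).subset hsub)

end Pool.Agent.TH778.SA
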